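import Pool.Agent.H45.SQ.Targets2

/-!
# Module CID: the cube statistic of kernels that are nearly of rank one
-/

namespace Pool.Agent.H19.SQ

open Finset Pool.Agent.H45.SQ
open scoped BigOperators ComplexConjugate

lemma expect_pi {ι α : Type*} [Fintype ι] [DecidableEq ι] [Fintype α]
    (f : ι → α → ℂ) : 𝔼 o : ι → α, ∏ i, f i (o i) = ∏ i, 𝔼 x, f i x := by
  classical
  simp only [Finset.expect_eq_sum_div_card, Finset.card_univ, Fintype.card_pi]
  rw [Finset.prod_div_distrib, ← Fintype.piFinset_univ, ← Finset.prod_univ_sum]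
  congr 1
  push_cast
  rfl

/-- Products of nearly equal factors. -/
lemma prod_sub_le {ι : Type*} (s : Finset ι) (a b : ι → ℂ) (M ε : ℝ) (hM : 1 ≤ M)
    (hε : 0 ≤ ε) (ha : ∀ i ∈ s, ‖a i‖ ≤ M) (hb : ∀ i ∈ s, ‖b i‖ ≤ M)
    (hab : ∀ i ∈ s, ‖a i - b i‖ ≤ ε) :
    ‖∏ i ∈ s, a i - ∏ i ∈ s, b i‖ ≤ s.card * (M ^ (s.card - 1)) * ε ∧
      ‖∏ i ∈ s, a i‖ ≤ M ^ s.card ∧ ‖∏ i ∈ s, b i‖ ≤ M ^ s.card := by
  classical
  induction s using Finset.induction_on with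
  | empty => simp
  | insert j s hj ih =>
    obtain ⟨h1, h2, h3⟩ := ih (fun i hi => ha i (mem_insert_of_mem hi))
      (fun i hi => hb i (mem_insert_of_mem hi)) (fun i hi => hab i (mem_insert_of_mem hi))
    have hM0 : 0 ≤ M := by linarith
    have haj := ha j (mem_insert_self _ _)
    have hbj := hb j (mem_insert_self _ _)
    have habj := hab j (mem_insert_self _ _)
    rw [prod_insert hj, prod_insert hj, card_insert_of_notMem hj]
    refine ⟨?_, ?_, ?_⟩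
    · have e : a j * ∏ i ∈ s, a i - b j * ∏ i ∈ s, b i
          = (a j - b j) * ∏ i ∈ s, a i + b j * (∏ i ∈ s, a i - ∏ i ∈ s, b i) := by ring
      rw [e]
      refine (norm_add_le _ _).trans ?_
      rw [norm_mul, norm_mul]
      have t1 : ‖a j - b j‖ * ‖∏ i ∈ s, a i‖ ≤ ε * M ^ s.card := by gcongr
      have t2 : ‖b j‖ * ‖∏ i ∈ s, a i - ∏ i ∈ s, b i‖
          ≤ M * (s.card * (M ^ (s.card - 1)) * ε) := by gcongr
      have t3 : M * (s.card * (M ^ (s.card - 1)) * ε) = s.card * M ^ s.card * ε := by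
        rcases Nat.eq_zero_or_pos s.card with h0 | h0
        · rw [h0]; simp
        · obtain ⟨n, hn⟩ : ∃ n, s.card = n + 1 := ⟨s.card - 1, by omega⟩
          rw [hn, Nat.add_sub_cancel, pow_succ]
          ring
      rw [Nat.add_sub_cancel]
      push_cast
      nlinarith
    · rw [norm_mul, pow_succ, mul_comm]
      gcongr
    · rw [norm_mul, pow_succ, mul_comm]
      gcongr

section

variable {G : Type} [AddCommGroup G] [Module (ZMod 2) G]

lemma gg (x : G) : x + x = 0 := by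
  have h : (2 : ZMod 2) • x = x + x := two_smul _ x
  rw [← h]
  have : (2 : ZMod 2) = 0 := rfl
  rw [this, zero_smul]

lemma four (a b : Fin 2 → Fin 2 → ℂ) (M ε : ℝ) (hM : 1 ≤ M) (hε : 0 ≤ ε)
    (ha : ∀ i j, ‖a i j‖ ≤ M) (hb : ∀ i j, ‖b i j‖ ≤ M) (hab : ∀ i j, ‖a i j - b i j‖ ≤ ε) :
    ‖∏ i, ∏ j, a i j - ∏ i, ∏ j, b i j‖ ≤ 4 * M ^ 3 * ε ∧ ‖∏ i, ∏ j, a i j‖ ≤ M ^ 4 ∧
      ‖∏ i, ∏ j, b i j‖ ≤ M ^ 4 := by
  have h := prod_sub_le (Finset.univ : Finset (Fin 2 × Fin 2)) (fun p => a p.1 p.2)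
    (fun p => b p.1 p.2) M ε hM hε (fun _ _ => ha _ _) (fun _ _ => hb _ _) (fun _ _ => hab _ _)
  rw [Fintype.prod_prod_type, Fintype.prod_prod_type] at h
  have hc : (Finset.univ : Finset (Fin 2 × Fin 2)).card = 4 := by simp
  rw [hc] at h
  norm_num at h
  simpa using h

lemma three (a₁ a₂ a₃ b₁ b₂ b₃ : ℂ) (M ε : ℝ) (hM : 1 ≤ M) (hε : 0 ≤ ε)
    (h1 : ‖a₁ - b₁‖ ≤ 4 * M ^ 3 * ε ∧ ‖a₁‖ ≤ M ^ 4 ∧ ‖b₁‖ ≤ M ^ 4)
    (h2 : ‖a₂ - b₂‖ ≤ 4 * M ^ 3 * ε ∧ ‖a₂‖ ≤ M ^ 4 ∧ ‖b₂‖ ≤ M ^ 4)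
    (h3 : ‖a₃ - b₃‖ ≤ 4 * M ^ 3 * ε ∧ ‖a₃‖ ≤ M ^ 4 ∧ ‖b₃‖ ≤ M ^ 4) :
    ‖a₁ * a₂ * a₃ - b₁ * b₂ * b₃‖ ≤ 12 * M ^ 11 * ε := by
  have e : a₁ * a₂ * a₃ - b₁ * b₂ * b₃
      = (a₁ - b₁) * a₂ * a₃ + b₁ * (a₂ - b₂) * a₃ + b₁ * b₂ * (a₃ - b₃) := by ring
  rw [e]
  obtain ⟨d1, m1, n1⟩ := h1
  obtain ⟨d2, m2, n2⟩ := h2
  obtain ⟨d3, m3, n3⟩ := h3
  have hM0 : 0 ≤ M := by linarith
  refine (norm_add₃_le).trans ?_
  simp only [norm_mul]
  have t1 : ‖a₁ - b₁‖ * ‖a₂‖ * ‖a₃‖ ≤ 4 * M ^ 3 * ε * M ^ 4 * M ^ 4 := by gcongr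
  have t2 : ‖b₁‖ * ‖a₂ - b₂‖ * ‖a₃‖ ≤ M ^ 4 * (4 * M ^ 3 * ε) * M ^ 4 := by gcongr
  have t3 : ‖b₁‖ * ‖b₂‖ * ‖a₃ - b₃‖ ≤ M ^ 4 * M ^ 4 * (4 * M ^ 3 * ε) := by gcongr
  calc _ ≤ 4 * M ^ 3 * ε * M ^ 4 * M ^ 4 + M ^ 4 * (4 * M ^ 3 * ε) * M ^ 4
        + M ^ 4 * M ^ 4 * (4 * M ^ 3 * ε) := by linarith
    _ = _ := by ring

omit [AddCommGroup G] [Module (ZMod 2) G] in
lemma edge {E : G → ℂ} {K : ℂ} {b ε : ℝ} (hb1 : 1 ≤ b) (hε1 : ε ≤ 1) (hE : ∀ y, ‖E y‖ ≤ b)
    (u v : G) (hK : ‖K - E u * conj (E v)‖ ≤ ε) :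
    ‖K‖ ≤ b ^ 2 + 1 ∧ ‖E u * conj (E v)‖ ≤ b ^ 2 + 1 := by
  have h1 : ‖E u * conj (E v)‖ ≤ b ^ 2 := by
    rw [norm_mul, RCLike.norm_conj, pow_two]
    exact mul_le_mul (hE u) (hE v) (norm_nonneg _) (by linarith)
  constructor
  · have e : K = (K - E u * conj (E v)) + E u * conj (E v) := by ring
    rw [e]
    refine (norm_add_le _ _).trans ?_
    linarith
  · linarith

/-- The vertex functions. -/
noncomputable def vtx (e X g : G → G → ℂ) (r : Fin 3 × Fin 2 → G) (i j k : Fin 2) (o : G) : ℂ :=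
  e (r (0, i) + r (1, j)) (r (0, i) + o) * X (r (1, j) + r (2, k)) (r (1, j) + o) *
    g (r (0, i) + r (2, k)) (r (2, k) + o)

omit [AddCommGroup G] [Module (ZMod 2) G] in
lemma cj_expect [Fintype G] (n : ℕ) (f : G → ℂ) : cj n (𝔼 y, f y) = 𝔼 y, cj n (f y) := by
  unfold cj
  split_ifs
  · rfl
  · simp only [Finset.expect_eq_sum_div_card, map_div₀, map_sum, map_natCast]

lemma tri_eq [Fintype G] (e X g : G → G → ℂ) (r : Fin 3 × Fin 2 → G) (i j k : Fin 2) :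
    Tri (r (0, i) + r (1, j)) (r (1, j) + r (2, k)) (e (r (0, i) + r (1, j)))
        (X (r (1, j) + r (2, k))) (g (r (0, i) + r (2, k))) = 𝔼 o, vtx e X g r i j k o := by
  unfold Tri vtx
  symm
  refine Fintype.expect_equiv (Equiv.addLeft (r (0, i))) _ _ fun o => ?_
  simp only [Equiv.coe_addLeft]
  have a1 : r (0, i) + o + (r (0, i) + r (1, j)) = r (1, j) + o := by
    calc _ = (r (0, i) + r (0, i)) + (r (1, j) + o) := by abel
      _ = _ := by rw [gg, zero_add]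
  have a2 : r (1, j) + o + (r (1, j) + r (2, k)) = r (2, k) + o := by
    calc _ = (r (1, j) + r (1, j)) + (r (2, k) + o) := by abel
      _ = _ := by rw [gg, zero_add]
  rw [a1, a2]

/-- Model factors of the edges. -/
noncomputable def mA (e : G → G → ℂ) (r : Fin 3 × Fin 2 → G) (o : Fin 2 → Fin 2 → Fin 2 → G)
    (i j : Fin 2) : ℂ :=
  e (r (0, i) + r (1, j)) (r (0, i) + o i j (i + j)) *
    conj (e (r (0, i) + r (1, j)) (r (0, i) + o i j (i + j + 1)))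

/-- Model factors of the edges. -/
noncomputable def mB (X : G → G → ℂ) (r : Fin 3 × Fin 2 → G) (o : Fin 2 → Fin 2 → Fin 2 → G)
    (j k : Fin 2) : ℂ :=
  X (r (1, j) + r (2, k)) (r (1, j) + o (j + k) j k) *
    conj (X (r (1, j) + r (2, k)) (r (1, j) + o (j + k + 1) j k))

/-- Model factors of the edges. -/
noncomputable def mC (g : G → G → ℂ) (r : Fin 3 × Fin 2 → G) (o : Fin 2 → Fin 2 → Fin 2 → G)
    (k i : Fin 2) : ℂ :=
  g (r (0, i) + r (2, k)) (r (2, k) + o i (i + k) k) *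
    conj (g (r (0, i) + r (2, k)) (r (2, k) + o i (i + k + 1) k))

omit [Module (ZMod 2) G] in
lemma model (e X g : G → G → ℂ) (r : Fin 3 × Fin 2 → G) (o : Fin 2 → Fin 2 → Fin 2 → G) :
    (∏ i, ∏ j, mA e r o i j) * (∏ j, ∏ k, mB X r o j k) * (∏ k, ∏ i, mC g r o k i)
      = ∏ i : Fin 2, ∏ j : Fin 2, ∏ k : Fin 2,
        cj (i.val + j.val + k.val) (vtx e X g r i j k (o i j k)) := by
  have h11 : (1 : Fin 2) + 1 = 0 := rfl
  have c0 : ∀ z : ℂ, cj 0 z = z := fun z => if_pos (by decide)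
  have c1 : ∀ z : ℂ, cj 1 z = conj z := fun z => if_neg (by decide)
  have c2 : ∀ z : ℂ, cj 2 z = z := fun z => if_pos (by decide)
  have c3 : ∀ z : ℂ, cj 3 z = conj z := fun z => if_neg (by decide)
  simp only [Fin.prod_univ_two, mA, mB, mC, add_zero, zero_add, h11, Fin.val_zero, Fin.val_one,
    Nat.reduceAdd, c0, c1, c2, c3, vtx, map_mul]
  ring

theorem cid : T_CID := by
  intro G _ _ _ _ A B C e X g r b ε hb hε hε1 he hX hg hA hB hC
  have h11 : (1 : Fin 2) + 1 = 0 := rfl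
  have hM : 1 ≤ b ^ 2 + 1 := by nlinarith [sq_nonneg b]
  have edA : ∀ (o : Fin 2 → Fin 2 → Fin 2 → G) i j,
      ‖A (o i j 0 + o i j 1) (r (0, i) + o i j (i + j)) (r (1, j) + o i j (i + j))
        - mA e r o i j‖ ≤ ε := by
    intro o i j
    have h := hA i j (o i j 0 + o i j 1) (r (0, i) + o i j (i + j))
    have a1 : r (0, i) + o i j (i + j) + (r (0, i) + r (1, j)) = r (1, j) + o i j (i + j) := by
      calc _ = (r (0, i) + r (0, i)) + (r (1, j) + o i j (i + j)) := by abel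
        _ = _ := by rw [gg, zero_add]
    have a2 : ∀ m : Fin 2, r (0, i) + o i j m + (o i j 0 + o i j 1) = r (0, i) + o i j (m + 1) := by
      intro m
      fin_cases m
      · calc _ = (o i j 0 + o i j 0) + (r (0, i) + o i j 1) := by
              simp only [Fin.zero_eta, Fin.isValue]; abel
          _ = _ := by rw [gg, zero_add]; rfl
      · calc _ = (o i j 1 + o i j 1) + (r (0, i) + o i j 0) := by
              simp only [Fin.mk_one, Fin.isValue]; abel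
          _ = _ := by rw [gg, zero_add]; rfl
    rw [a1, a2] at h
    exact h
  have edB : ∀ (o : Fin 2 → Fin 2 → Fin 2 → G) j k,
      ‖B (o 0 j k + o 1 j k) (r (1, j) + o (j + k) j k) (r (2, k) + o (j + k) j k)
        - mB X r o j k‖ ≤ ε := by
    intro o j k
    have h := hB j k (o 0 j k + o 1 j k) (r (1, j) + o (j + k) j k)
    have a1 : r (1, j) + o (j + k) j k + (r (1, j) + r (2, k)) = r (2, k) + o (j + k) j k := by
      calc _ = (r (1, j) + r (1, j)) + (r (2, k) + o (j + k) j k) := by abel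
        _ = _ := by rw [gg, zero_add]
    have a2 : ∀ m : Fin 2, r (1, j) + o m j k + (o 0 j k + o 1 j k) = r (1, j) + o (m + 1) j k := by
      intro m
      fin_cases m
      · calc _ = (o 0 j k + o 0 j k) + (r (1, j) + o 1 j k) := by
              simp only [Fin.zero_eta, Fin.isValue]; abel
          _ = _ := by rw [gg, zero_add]; rfl
      · calc _ = (o 1 j k + o 1 j k) + (r (1, j) + o 0 j k) := by
              simp only [Fin.mk_one, Fin.isValue]; abel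
          _ = _ := by rw [gg, zero_add]; rfl
    rw [a1, a2] at h
    exact h
  have edC : ∀ (o : Fin 2 → Fin 2 → Fin 2 → G) k i,
      ‖C (o i 0 k + o i 1 k) (r (2, k) + o i (i + k) k) (r (0, i) + o i (i + k) k)
        - mC g r o k i‖ ≤ ε := by
    intro o k i
    have h := hC i k (o i 0 k + o i 1 k) (r (2, k) + o i (i + k) k)
    have a1 : r (2, k) + o i (i + k) k + (r (0, i) + r (2, k)) = r (0, i) + o i (i + k) k := by
      calc _ = (r (2, k) + r (2, k)) + (r (0, i) + o i (i + k) k) := by abel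
        _ = _ := by rw [gg, zero_add]
    have a2 : ∀ m : Fin 2, r (2, k) + o i m k + (o i 0 k + o i 1 k) = r (2, k) + o i (m + 1) k := by
      intro m
      fin_cases m
      · calc _ = (o i 0 k + o i 0 k) + (r (2, k) + o i 1 k) := by
              simp only [Fin.zero_eta, Fin.isValue]; abel
          _ = _ := by rw [gg, zero_add]; rfl
      · calc _ = (o i 1 k + o i 1 k) + (r (2, k) + o i 0 k) := by
              simp only [Fin.mk_one, Fin.isValue]; abel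
          _ = _ := by rw [gg, zero_add]; rfl
    rw [a1, a2] at h
    exact h
  have main : ∀ o : Fin 2 → Fin 2 → Fin 2 → G,
      ‖(∏ i : Fin 2, ∏ j : Fin 2,
      A (o i j 0 + o i j 1) (r (0, i) + o i j (i + j)) (r (1, j) + o i j (i + j))) *
    (∏ j : Fin 2, ∏ k : Fin 2,
      B (o 0 j k + o 1 j k) (r (1, j) + o (j + k) j k) (r (2, k) + o (j + k) j k)) *
    (∏ k : Fin 2, ∏ i : Fin 2,
      C (o i 0 k + o i 1 k) (r (2, k) + o i (i + k) k) (r (0, i) + o i (i + k) k))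
      - ∏ i : Fin 2, ∏ j : Fin 2, ∏ k : Fin 2,
        cj (i.val + j.val + k.val) (vtx e X g r i j k (o i j k))‖
        ≤ 12 * (b ^ 2 + 1) ^ 11 * ε := by
    intro o
    rw [← model]
    refine three _ _ _ _ _ _ (b ^ 2 + 1) ε hM hε ?_ ?_ ?_
    · exact four _ _ _ _ hM hε (fun i j => (edge hb hε1 (he _) _ _ (edA o i j)).1)
        (fun i j => (edge hb hε1 (he _) _ _ (edA o i j)).2) (edA o)
    · exact four _ _ _ _ hM hε (fun i j => (edge hb hε1 (hX _) _ _ (edB o i j)).1)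
        (fun i j => (edge hb hε1 (hX _) _ _ (edB o i j)).2) (edB o)
    · exact four _ _ _ _ hM hε (fun i j => (edge hb hε1 (hg _) _ _ (edC o i j)).1)
        (fun i j => (edge hb hε1 (hg _) _ _ (edC o i j)).2) (edC o)
  have hprod : ∏ i : Fin 2, ∏ j : Fin 2, ∏ k : Fin 2, cj (i.val + j.val + k.val)
      (Tri (r (0, i) + r (1, j)) (r (1, j) + r (2, k)) (e (r (0, i) + r (1, j)))
        (X (r (1, j) + r (2, k))) (g (r (0, i) + r (2, k))))
      = 𝔼 o : Fin 2 → Fin 2 → Fin 2 → G, ∏ i : Fin 2, ∏ j : Fin 2, ∏ k : Fin 2,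
        cj (i.val + j.val + k.val) (vtx e X g r i j k (o i j k)) := by
    simp only [tri_eq, cj_expect]
    rw [expect_pi (fun (i : Fin 2) (x : Fin 2 → Fin 2 → G) => ∏ j : Fin 2, ∏ k : Fin 2,
      cj (i.val + j.val + k.val) (vtx e X g r i j k (x j k)))]
    refine Finset.prod_congr rfl fun i _ => ?_
    rw [expect_pi (fun (j : Fin 2) (x : Fin 2 → G) => ∏ k : Fin 2,
      cj (i.val + j.val + k.val) (vtx e X g r i j k (x k)))]
    refine Finset.prod_congr rfl fun j _ => ?_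
    rw [expect_pi (fun (k : Fin 2) (x : G) =>
      cj (i.val + j.val + k.val) (vtx e X g r i j k x))]
  rw [hprod]
  unfold Cub
  rw [← Finset.expect_sub_distrib]
  refine (RCLike.norm_expect_le (K := ℝ)).trans ?_
  exact Finset.expect_le Finset.univ_nonempty fun o _ => main o

end

end Pool.Agent.H19.SQ
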