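import Pool.Agent.H45.SQ.Targets2

/-!
# Module LEMC: planar statistics are nearly constant on cosets
-/

namespace Pool.Agent.H19.SQ

open Finset Pool.Agent.H45.SQ
open scoped BigOperators ComplexConjugate

section

variable {G ι : Type} [Fintype ι] [DecidableEq ι]

/-- Resampling one coordinate does not change an average over a box. -/
lemma exp_update (s : Finset G) (hs : s.Nonempty) (i : ι) (F : (ι → G) → ℝ) :
    𝔼 h ∈ Fintype.piFinset (fun _ : ι => s), 𝔼 a ∈ s, F (Function.update h i a)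
      = 𝔼 h ∈ Fintype.piFinset (fun _ : ι => s), F h := by
  rw [← Finset.expect_product (Fintype.piFinset (fun _ : ι => s)) s
    (fun p => F (Function.update p.1 i p.2))]
  have h1 : 𝔼 h ∈ Fintype.piFinset (fun _ : ι => s), F h
      = 𝔼 p ∈ Fintype.piFinset (fun _ : ι => s) ×ˢ s, F p.1 := by
    rw [Finset.expect_product]
    refine Finset.expect_congr rfl fun h _ => ?_
    exact (Finset.expect_const hs (F h)).symm
  rw [h1]
  refine Finset.expect_nbij' (fun p => (Function.update p.1 i p.2, p.1 i))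
    (fun p => (Function.update p.1 i p.2, p.1 i)) ?_ ?_ ?_ ?_ ?_
  · rintro ⟨h, a⟩ hp
    simp only [Finset.mem_product, Fintype.mem_piFinset] at hp ⊢
    refine ⟨fun k => ?_, hp.1 i⟩
    by_cases hk : k = i
    · subst hk; simpa using hp.2
    · rw [Function.update_of_ne hk]; exact hp.1 k
  · rintro ⟨h, a⟩ hp
    simp only [Finset.mem_product, Fintype.mem_piFinset] at hp ⊢
    refine ⟨fun k => ?_, hp.1 i⟩
    by_cases hk : k = i
    · subst hk; simpa using hp.2
    · rw [Function.update_of_ne hk]; exact hp.1 k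
  · rintro ⟨h, a⟩ _
    simp
  · rintro ⟨h, a⟩ _
    simp
  · rintro ⟨h, a⟩ _
    rfl

/-- Hybrid rows. -/
def hyb (S : Finset ι) (h h' : ι → G) : ι → G := fun i => if i ∈ S then h' i else h i

omit [Fintype ι] in
lemma hyb_update (S : Finset ι) (i : ι) (hi : i ∉ S) (h h' : ι → G) (a a' : G) :
    hyb S (Function.update h i a) (Function.update h' i a') = Function.update (hyb S h h') i a ∧
    hyb (insert i S) (Function.update h i a) (Function.update h' i a')
      = Function.update (hyb S h h') i a' := by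
  constructor
  · funext k
    unfold hyb
    by_cases hk : k = i
    · subst hk; simp [hi]
    · simp only [Function.update_of_ne hk]
  · funext k
    unfold hyb
    by_cases hk : k = i
    · subst hk; simp
    · simp only [Function.update_of_ne hk, Finset.mem_insert, hk, false_or]

lemma exp_two (s : Finset G) (hs : s.Nonempty) (i : ι) (Ψ : (ι → G) → (ι → G) → ℝ) (B : ℝ)
    (hB : ∀ h h', 𝔼 a ∈ s, 𝔼 a' ∈ s, Ψ (Function.update h i a) (Function.update h' i a') ≤ B) :
    𝔼 h ∈ Fintype.piFinset (fun _ : ι => s), 𝔼 h' ∈ Fintype.piFinset (fun _ : ι => s), Ψ h h'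
      ≤ B := by
  have hP : (Fintype.piFinset (fun _ : ι => s)).Nonempty := by
    obtain ⟨a, ha⟩ := hs
    exact ⟨fun _ => a, by simpa using fun _ => ha⟩
  have e1 : 𝔼 h ∈ Fintype.piFinset (fun _ : ι => s),
      𝔼 h' ∈ Fintype.piFinset (fun _ : ι => s), Ψ h h'
      = 𝔼 h ∈ Fintype.piFinset (fun _ : ι => s), 𝔼 h' ∈ Fintype.piFinset (fun _ : ι => s),
        𝔼 a ∈ s, 𝔼 a' ∈ s, Ψ (Function.update h i a) (Function.update h' i a') := by
    rw [← exp_update s hs i]
    refine Finset.expect_congr rfl fun h _ => ?_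
    rw [Finset.expect_comm (Fintype.piFinset (fun _ : ι => s)) s]
    refine Finset.expect_congr rfl fun a _ => ?_
    rw [exp_update s hs i (fun h' => Ψ (Function.update h i a) h')]
  rw [e1]
  exact Finset.expect_le hP fun h _ => Finset.expect_le hP fun h' _ => hB h h'

lemma exp_hyb [Add G] (s : Finset G) (hs : s.Nonempty) (g : (ι → G) → ℂ) (c : ι → G)
    (B : ℝ) (hB0 : 0 ≤ B)
    (hB : ∀ i (ρ : ι → G), 𝔼 a ∈ s, 𝔼 a' ∈ s, ‖g (c + Function.update ρ i a)
      - g (c + Function.update ρ i a')‖ ^ 2 ≤ B) (S : Finset ι) :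
    𝔼 h ∈ Fintype.piFinset (fun _ : ι => s), 𝔼 h' ∈ Fintype.piFinset (fun _ : ι => s),
      ‖g (c + h) - g (c + hyb S h h')‖ ^ 2 ≤ 4 ^ S.card * B := by
  induction S using Finset.induction_on with
  | empty =>
    have : ∀ h h' : ι → G, hyb ∅ h h' = h := fun h h' => by
      funext k; simp [hyb]
    simp only [this, sub_self, norm_zero]
    simpa using hB0
  | insert i S hi ih =>
    have h2 := exp_two s hs i (fun h h' => ‖g (c + hyb S h h') - g (c + hyb (insert i S) h h')‖ ^ 2)
      B (by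
        intro h h'
        have := hB i (hyb S h h')
        simp only [(hyb_update S i hi _ _ _ _).1, (hyb_update S i hi _ _ _ _).2]
        exact this)
    have h3 : ∀ h h', ‖g (c + h) - g (c + hyb (insert i S) h h')‖ ^ 2
        ≤ 2 * ‖g (c + h) - g (c + hyb S h h')‖ ^ 2
          + 2 * ‖g (c + hyb S h h') - g (c + hyb (insert i S) h h')‖ ^ 2 := by
      intro h h'
      have e : g (c + h) - g (c + hyb (insert i S) h h') = (g (c + h) - g (c + hyb S h h'))
        + (g (c + hyb S h h') - g (c + hyb (insert i S) h h')) := by ring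
      have h4 := norm_add_le (g (c + h) - g (c + hyb S h h'))
        (g (c + hyb S h h') - g (c + hyb (insert i S) h h'))
      rw [← e] at h4
      have h5 := norm_nonneg (g (c + h) - g (c + hyb (insert i S) h h'))
      nlinarith [sq_nonneg (‖g (c + h) - g (c + hyb S h h')‖
        - ‖g (c + hyb S h h') - g (c + hyb (insert i S) h h')‖)]
    calc _ ≤ 𝔼 h ∈ Fintype.piFinset (fun _ : ι => s), 𝔼 h' ∈ Fintype.piFinset (fun _ : ι => s),
          (2 * ‖g (c + h) - g (c + hyb S h h')‖ ^ 2
          + 2 * ‖g (c + hyb S h h') - g (c + hyb (insert i S) h h')‖ ^ 2) :=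
          Finset.expect_le_expect fun h _ => Finset.expect_le_expect fun h' _ => h3 h h'
      _ = 2 * (𝔼 h ∈ Fintype.piFinset (fun _ : ι => s), 𝔼 h' ∈ Fintype.piFinset (fun _ : ι => s),
          ‖g (c + h) - g (c + hyb S h h')‖ ^ 2)
          + 2 * (𝔼 h ∈ Fintype.piFinset (fun _ : ι => s), 𝔼 h' ∈ Fintype.piFinset (fun _ : ι => s),
          ‖g (c + hyb S h h') - g (c + hyb (insert i S) h h')‖ ^ 2) := by
          simp only [Finset.expect_add_distrib, ← Finset.mul_expect]
      _ ≤ 2 * (4 ^ S.card * B) + 2 * B := by gcongr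
      _ ≤ _ := by
          rw [Finset.card_insert_of_notMem hi, pow_succ]
          have : (1 : ℝ) ≤ 4 ^ S.card := one_le_pow₀ (by norm_num)
          nlinarith

end

section

variable {G : Type} [AddCommGroup G] [Fintype G] [DecidableEq G] [Module (ZMod 2) G]

omit [DecidableEq G] in
lemma hs_nonempty (H : Submodule (ZMod 2) G) : (hs H).Nonempty :=
  ⟨0, by simp [hs]⟩

omit [DecidableEq G] in
lemma Fc_shift (φ : G → ℂ) (H : Submodule (ZMod 2) G) (l : Module.Dual (ZMod 2) G) (c : G) :
    Fc (fun x => φ (c + x)) H l = Fc φ H l := by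
  unfold Fc
  refine Fintype.expect_equiv (Equiv.addLeft c) _ _ fun x => ?_
  simp only [Equiv.coe_addLeft, add_assoc]

end

theorem lemc (h1 : T_REGH) (h2 : T_RES) : T_LEMC := by
  intro ι _ _ J C κ hκ
  classical
  set C' : ℝ := |C| + 1 with hC'
  have hC'0 : 0 < C' := by positivity
  set κ' : ℝ := κ / (4 ^ Fintype.card ι * (2 * C')) with hκ'
  have hκ'0 : 0 < κ' := by positivity
  obtain ⟨n₀, hn₀⟩ := h1 κ' C' (Fintype.card (Fin J × ι)) hκ'0
  refine ⟨n₀, ?_⟩
  intro G _ _ _ _ g hg
  choose Ω hΩ c φ hφ hc hgr using hg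
  let e := Fintype.equivFin (Fin J × ι)
  obtain ⟨H, hH1, hH2⟩ := @hn₀ G _ _ _ _ (fun m => Ω (e.symm m).1) (fun m => hΩ (e.symm m).1)
    (fun m w => ‖c (e.symm m).1 w‖) (fun m w => φ (e.symm m).1 w (e.symm m).2)
    (fun m w => norm_nonneg _) (fun m => (hc _).trans (by
      rw [hC']
      linarith [le_abs_self C])) (fun m w x => hφ _ _ _ _)
  refine ⟨H, hH1, ?_⟩
  intro j c₀
  have hreg : ∀ (i : ι) (l : Module.Dual (ZMod 2) G), (∃ h ∈ H, l h ≠ 0) →
      ∑ w, ‖c j w‖ * Fc (φ j w i) H l ≤ κ' := by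
    intro i l hl
    have := hH2 (e (j, i)) l hl
    have e1 : e.symm (e (j, i)) = (j, i) := e.symm_apply_apply _
    have gen : ∀ p : Fin J × ι, (∑ w, ‖c p.1 w‖ * Fc (φ p.1 w p.2) H l ≤ κ') → p = (j, i) →
        ∑ w, ‖c j w‖ * Fc (φ j w i) H l ≤ κ' := by
      rintro p hp rfl
      exact hp
    exact gen _ this e1
  have hcard : (Finset.univ : Finset ι).card = Fintype.card ι := Finset.card_univ
  have hB : ∀ i (ρ : ι → G), 𝔼 a ∈ hs H, 𝔼 a' ∈ hs H, ‖g j (c₀ + Function.update ρ i a)
      - g j (c₀ + Function.update ρ i a')‖ ^ 2 ≤ 2 * κ' * C' := by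
    intro i ρ
    have h3 := h2 G H (Ω j) (c j) (fun w x => φ j w i (c₀ i + x))
      (fun w y => ∏ k ∈ Finset.univ.erase i, φ j w k (c₀ k + ρ k + y)) κ' C'
      (fun w x => hφ _ _ _ _)
      (fun w y => by
        rw [norm_prod]
        exact Finset.prod_le_one (fun k _ => norm_nonneg _) (fun k _ => hφ _ _ _ _))
      ((hc j).trans (by
        rw [hC']
        linarith [le_abs_self C]))
      (fun l hl => by
        simp only [Fc_shift]
        exact hreg i l hl) hκ'0.le
    have e2 : ∀ a : G, g j (c₀ + Function.update ρ i a) = ∑ w, c j w * 𝔼 y,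
        φ j w i (c₀ i + (a + y)) * ∏ k ∈ Finset.univ.erase i, φ j w k (c₀ k + ρ k + y) := by
      intro a
      rw [hgr]
      refine Finset.sum_congr rfl fun w _ => ?_
      congr 1
      refine Finset.expect_congr rfl fun y _ => ?_
      rw [← Finset.mul_prod_erase Finset.univ _ (Finset.mem_univ i)]
      congr 1
      · rw [Pi.add_apply, Function.update_self, add_assoc]
      · refine Finset.prod_congr rfl fun k hk => ?_
        rw [Pi.add_apply, Function.update_of_ne (Finset.ne_of_mem_erase hk)]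
    simp only [e2]
    exact h3
  have h5 := exp_hyb (hs H) (hs_nonempty H) (g j) c₀ (2 * κ' * C') (by positivity) hB Finset.univ
  have e3 : ∀ h h' : ι → G, hyb Finset.univ h h' = h' := fun h h' => by
    funext k; simp [hyb]
  simp only [e3, hcard] at h5
  refine h5.trans (le_of_eq ?_)
  rw [hκ']
  field_simp

end Pool.Agent.H19.SQ
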