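import Pool.Agent.H81.SQ.Targets

/-!
# Module LI: the label inequality
-/

namespace Pool.Agent.H19.SQ

open Pool.Agent.H81.SQ
open scoped BigOperators

section

variable {A : Type} [Fintype A] {k : ℕ}

lemma vv (x : Fin k → ZMod 2) : x + x = 0 := by
  funext i
  have : ∀ a : ZMod 2, a + a = 0 := by decide
  exact this (x i)

lemma va (x y : Fin k → ZMod 2) : x + y + y = x := by rw [add_assoc, vv, add_zero]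

lemma reorder1 (L : A → A → A → A → A → A → (Fin k → ZMod 2) → (Fin k → ZMod 2) →
    (Fin k → ZMod 2) → ℝ) (τ : A → (Fin k → ZMod 2)) :
    ∑ X, ∑ X', ∑ Y, ∑ Y', ∑ Z, ∑ Z', ∑ m₁, ∑ m₂, ∑ m₃, L X X' Y Y' Z Z' m₁ m₂ m₃
      = ∑ ω : A × A × A × A × (Fin k → ZMod 2), ∑ X', ∑ m₂, ∑ X, ∑ m₁,
        L X X' ω.1 ω.2.1 ω.2.2.1 ω.2.2.2.1 m₁ m₂ (m₁ + ω.2.2.2.2 + τ X) := by
  classical
  let e : (A × A × A × A × A × A × (Fin k → ZMod 2) × (Fin k → ZMod 2) × (Fin k → ZMod 2)) ≃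
      ((A × A × A × A × (Fin k → ZMod 2)) × A × (Fin k → ZMod 2) × A × (Fin k → ZMod 2)) :=
    { toFun := fun ⟨X, X', Y, Y', Z, Z', m₁, m₂, m₃⟩ =>
        ⟨⟨Y, Y', Z, Z', m₃ + m₁ + τ X⟩, X', m₂, X, m₁⟩
      invFun := fun ⟨⟨Y, Y', Z, Z', e⟩, X', m₂, X, m₁⟩ =>
        ⟨X, X', Y, Y', Z, Z', m₁, m₂, m₁ + e + τ X⟩
      left_inv := by
        rintro ⟨X, X', Y, Y', Z, Z', m₁, m₂, m₃⟩
        simp only [Prod.mk.injEq, true_and]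
        rw [show m₁ + (m₃ + m₁ + τ X) + τ X = m₃ + (m₁ + m₁) + τ X + τ X by abel, vv, va, add_zero]
      right_inv := by
        rintro ⟨⟨Y, Y', Z, Z', e⟩, X', m₂, X, m₁⟩
        simp only [Prod.mk.injEq, true_and, and_true]
        rw [show m₁ + e + τ X + m₁ + τ X = e + m₁ + m₁ + τ X + τ X by abel, va, va] }
  have hL : ∑ X, ∑ X', ∑ Y, ∑ Y', ∑ Z, ∑ Z', ∑ m₁, ∑ m₂, ∑ m₃, L X X' Y Y' Z Z' m₁ m₂ m₃
      = ∑ t : A × A × A × A × A × A × (Fin k → ZMod 2) × (Fin k → ZMod 2) × (Fin k → ZMod 2),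
        L t.1 t.2.1 t.2.2.1 t.2.2.2.1 t.2.2.2.2.1 t.2.2.2.2.2.1 t.2.2.2.2.2.2.1
          t.2.2.2.2.2.2.2.1 t.2.2.2.2.2.2.2.2 := by
    simp only [Fintype.sum_prod_type]
  have hR : ∑ ω : A × A × A × A × (Fin k → ZMod 2), ∑ X', ∑ m₂, ∑ X, ∑ m₁,
        L X X' ω.1 ω.2.1 ω.2.2.1 ω.2.2.2.1 m₁ m₂ (m₁ + ω.2.2.2.2 + τ X)
      = ∑ t : (A × A × A × A × (Fin k → ZMod 2)) × A × (Fin k → ZMod 2) × A × (Fin k → ZMod 2),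
        L t.2.2.2.1 t.2.1 t.1.1 t.1.2.1 t.1.2.2.1 t.1.2.2.2.1 t.2.2.2.2 t.2.2.1
          (t.2.2.2.2 + t.1.2.2.2.2 + τ t.2.2.2.1) := by
    simp only [Fintype.sum_prod_type]
  rw [hL, hR]
  refine (Fintype.sum_equiv e.symm _ _ ?_).symm
  rintro ⟨⟨Y, Y', Z, Z', e⟩, X', m₂, X, m₁⟩
  rfl

lemma step1 (p q r : A → ℝ) (τ : A → (Fin k → ZMod 2))
    (F : A → A → A → (Fin k → ZMod 2) → ℝ) :
    TM p q r τ F = ∑ ω : A × A × A × A × (Fin k → ZMod 2),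
      (q ω.1 * q ω.2.1 * r ω.2.2.1 * r ω.2.2.2.1 * (Fintype.card (Fin k → ZMod 2) : ℝ)⁻¹) *
      ((∑ X, p X * 𝔼 m₁, F X ω.1 ω.2.2.1 m₁ * F X ω.2.1 ω.2.2.2.1 (m₁ + ω.2.2.2.2 + τ X)) *
       (∑ X, p X * 𝔼 m₂, F X ω.1 ω.2.2.2.1 m₂ * F X ω.2.1 ω.2.2.1
        (m₂ + ω.2.2.2.2 + τ X + τ ω.1 + τ ω.2.1 + τ ω.2.2.1 + τ ω.2.2.2.1))) := by
  classical
  unfold TM
  simp only [Finset.expect_eq_sum_div_card, div_eq_mul_inv, Finset.sum_mul, Finset.mul_sum,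
    Finset.card_univ]
  refine (reorder1 _ τ).trans ?_
  refine Finset.sum_congr rfl fun ω _ => Finset.sum_congr rfl fun X' _ =>
    Finset.sum_congr rfl fun m₂ _ => Finset.sum_congr rfl fun X _ =>
    Finset.sum_congr rfl fun m₁ _ => ?_
  rw [show m₁ + m₂ + (m₁ + ω.2.2.2.2 + τ X) + τ X + τ X' + τ ω.1 + τ ω.2.1 + τ ω.2.2.1
      + τ ω.2.2.2.1 = m₂ + ω.2.2.2.2 + τ X' + τ ω.1 + τ ω.2.1 + τ ω.2.2.1 + τ ω.2.2.2.1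
      + m₁ + m₁ + τ X + τ X by abel, va, va]
  ring

lemma reorder2 (L : A → A → A → A → (Fin k → ZMod 2) → A → (Fin k → ZMod 2) →
    (Fin k → ZMod 2) → ℝ) (τ : A → (Fin k → ZMod 2)) :
    ∑ ω : A × A × A × A × (Fin k → ZMod 2), ∑ X, ∑ m₂, ∑ m₁,
      L ω.1 ω.2.1 ω.2.2.1 ω.2.2.2.1 ω.2.2.2.2 X m₁ m₂
      = ∑ ω : A × A × A × (Fin k → ZMod 2), ∑ Y', ∑ m₃, ∑ Y, ∑ m₁,
        L Y Y' ω.2.1 ω.2.2.1 (m₃ + m₁ + τ ω.1) ω.1 m₁ (m₁ + ω.2.2.2 + τ Y) := by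
  classical
  let e : ((A × A × A × (Fin k → ZMod 2)) × A × (Fin k → ZMod 2) × A × (Fin k → ZMod 2)) ≃
      ((A × A × A × A × (Fin k → ZMod 2)) × A × (Fin k → ZMod 2) × (Fin k → ZMod 2)) :=
    { toFun := fun ⟨⟨X, Z, Z', e'⟩, Y', m₃, Y, m₁⟩ =>
        ⟨⟨Y, Y', Z, Z', m₃ + m₁ + τ X⟩, X, m₁ + e' + τ Y, m₁⟩
      invFun := fun ⟨⟨Y, Y', Z, Z', e⟩, X, m₂, m₁⟩ =>
        ⟨⟨X, Z, Z', m₂ + m₁ + τ Y⟩, Y', m₁ + e + τ X, Y, m₁⟩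
      left_inv := by
        rintro ⟨⟨X, Z, Z', e'⟩, Y', m₃, Y, m₁⟩
        simp only [Prod.mk.injEq, true_and, and_true]
        rw [show m₁ + e' + τ Y + m₁ + τ Y = e' + m₁ + m₁ + τ Y + τ Y by abel, va, va,
          show m₁ + (m₃ + m₁ + τ X) + τ X = m₃ + m₁ + m₁ + τ X + τ X by abel, va, va]
        exact ⟨rfl, rfl⟩
      right_inv := by
        rintro ⟨⟨Y, Y', Z, Z', e⟩, X, m₂, m₁⟩
        simp only [Prod.mk.injEq, true_and, and_true]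
        rw [show m₁ + e + τ X + m₁ + τ X = e + m₁ + m₁ + τ X + τ X by abel, va, va,
          show m₁ + (m₂ + m₁ + τ Y) + τ Y = m₂ + m₁ + m₁ + τ Y + τ Y by abel, va, va]
        exact ⟨rfl, rfl⟩ }
  have hL : ∑ ω : A × A × A × A × (Fin k → ZMod 2), ∑ X, ∑ m₂, ∑ m₁,
      L ω.1 ω.2.1 ω.2.2.1 ω.2.2.2.1 ω.2.2.2.2 X m₁ m₂
      = ∑ t : (A × A × A × A × (Fin k → ZMod 2)) × A × (Fin k → ZMod 2) × (Fin k → ZMod 2),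
        L t.1.1 t.1.2.1 t.1.2.2.1 t.1.2.2.2.1 t.1.2.2.2.2 t.2.1 t.2.2.2 t.2.2.1 := by
    simp only [Fintype.sum_prod_type]
  have hR : ∑ ω : A × A × A × (Fin k → ZMod 2), ∑ Y', ∑ m₃, ∑ Y, ∑ m₁,
        L Y Y' ω.2.1 ω.2.2.1 (m₃ + m₁ + τ ω.1) ω.1 m₁ (m₁ + ω.2.2.2 + τ Y)
      = ∑ t : (A × A × A × (Fin k → ZMod 2)) × A × (Fin k → ZMod 2) × A × (Fin k → ZMod 2),
        L t.2.2.2.1 t.2.1 t.1.2.1 t.1.2.2.1 (t.2.2.1 + t.2.2.2.2 + τ t.1.1) t.1.1 t.2.2.2.2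
          (t.2.2.2.2 + t.1.2.2.2 + τ t.2.2.2.1) := by
    simp only [Fintype.sum_prod_type]
  rw [hL, hR]
  refine (Fintype.sum_equiv e _ _ ?_).symm
  rintro ⟨⟨X, Z, Z', e'⟩, Y', m₃, Y, m₁⟩
  rfl

lemma step2 (p q r : A → ℝ) (τ : A → (Fin k → ZMod 2))
    (F : A → A → A → (Fin k → ZMod 2) → ℝ) :
    ∑ ω : A × A × A × A × (Fin k → ZMod 2),
      (q ω.1 * q ω.2.1 * r ω.2.2.1 * r ω.2.2.2.1 * (Fintype.card (Fin k → ZMod 2) : ℝ)⁻¹) *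
      (∑ X, p X * ((𝔼 m₁, F X ω.1 ω.2.2.1 m₁ * F X ω.2.1 ω.2.2.2.1 (m₁ + ω.2.2.2.2 + τ X)) *
       (𝔼 m₂, F X ω.1 ω.2.2.2.1 m₂ * F X ω.2.1 ω.2.2.1
        (m₂ + ω.2.2.2.2 + τ X + τ ω.1 + τ ω.2.1 + τ ω.2.2.1 + τ ω.2.2.2.1))))
    = ∑ ω : A × A × A × (Fin k → ZMod 2),
      (p ω.1 * r ω.2.1 * r ω.2.2.1 * (Fintype.card (Fin k → ZMod 2) : ℝ)⁻¹) *
      ((∑ Y, q Y * 𝔼 m₁, F ω.1 Y ω.2.1 m₁ * F ω.1 Y ω.2.2.1 (m₁ + ω.2.2.2 + τ Y)) *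
       (∑ Y, q Y * 𝔼 m₃, F ω.1 Y ω.2.2.1 m₃ * F ω.1 Y ω.2.1
        (m₃ + ω.2.2.2 + τ Y + τ ω.2.1 + τ ω.2.2.1))) := by
  classical
  simp only [Finset.expect_eq_sum_div_card, div_eq_mul_inv, Finset.sum_mul, Finset.mul_sum,
    Finset.card_univ]
  refine (reorder2 (fun Y Y' Z Z' e X m₁ m₂ =>
    (q Y * q Y' * r Z * r Z' * (Fintype.card (Fin k → ZMod 2) : ℝ)⁻¹) *
      (p X * (F X Y Z m₁ * F X Y' Z' (m₁ + e + τ X) * (Fintype.card (Fin k → ZMod 2) : ℝ)⁻¹ *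
        (F X Y Z' m₂ * F X Y' Z (m₂ + e + τ X + τ Y + τ Y' + τ Z + τ Z') *
        (Fintype.card (Fin k → ZMod 2) : ℝ)⁻¹)))) τ).trans ?_
  refine Finset.sum_congr rfl fun ω _ => Finset.sum_congr rfl fun Y' _ =>
    Finset.sum_congr rfl fun m₃ _ => Finset.sum_congr rfl fun Y _ =>
    Finset.sum_congr rfl fun m₁ _ => ?_
  rw [show m₁ + ω.2.2.2 + τ Y + (m₃ + m₁ + τ ω.1) + τ ω.1 + τ Y + τ Y' + τ ω.2.1 + τ ω.2.2.1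
      = m₃ + ω.2.2.2 + τ Y' + τ ω.2.1 + τ ω.2.2.1 + m₁ + m₁ + τ Y + τ Y + τ ω.1 + τ ω.1 by abel,
    va, va, va, show m₁ + (m₃ + m₁ + τ ω.1) + τ ω.1 = m₃ + m₁ + m₁ + τ ω.1 + τ ω.1 by abel,
    va, va]
  ring

lemma reorder3 (L : A → A → A → (Fin k → ZMod 2) → A → (Fin k → ZMod 2) →
    (Fin k → ZMod 2) → ℝ) (τ : A → (Fin k → ZMod 2)) :
    ∑ ω : A × A × A × (Fin k → ZMod 2), ∑ Y, ∑ m₃, ∑ m₁,
      L ω.1 ω.2.1 ω.2.2.1 ω.2.2.2 Y m₁ m₃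
      = ∑ ω : A × A × (Fin k → ZMod 2), ∑ Z', ∑ m₂, ∑ Z, ∑ m₁,
        L ω.1 Z Z' (m₁ + m₂ + τ ω.2.1) ω.2.1 m₁ (m₂ + ω.2.2 + τ Z') := by
  classical
  let e : ((A × A × (Fin k → ZMod 2)) × A × (Fin k → ZMod 2) × A × (Fin k → ZMod 2)) ≃
      ((A × A × A × (Fin k → ZMod 2)) × A × (Fin k → ZMod 2) × (Fin k → ZMod 2)) :=
    { toFun := fun ⟨⟨X, Y, e⟩, Z', m₂, Z, m₁⟩ =>
        ⟨⟨X, Z, Z', m₁ + m₂ + τ Y⟩, Y, m₂ + e + τ Z', m₁⟩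
      invFun := fun ⟨⟨X, Z, Z', e'⟩, Y, m₃, m₁⟩ =>
        ⟨⟨X, Y, m₃ + (m₁ + e' + τ Y) + τ Z'⟩, Z', m₁ + e' + τ Y, Z, m₁⟩
      left_inv := by
        rintro ⟨⟨X, Y, e⟩, Z', m₂, Z, m₁⟩
        simp only [Prod.mk.injEq, true_and, and_true]
        rw [show m₁ + (m₁ + m₂ + τ Y) + τ Y = m₂ + m₁ + m₁ + τ Y + τ Y by abel, va, va,
          show m₂ + e + τ Z' + m₂ + τ Z' = e + m₂ + m₂ + τ Z' + τ Z' by abel, va, va]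
        exact ⟨rfl, rfl⟩
      right_inv := by
        rintro ⟨⟨X, Z, Z', e'⟩, Y, m₃, m₁⟩
        simp only [Prod.mk.injEq, true_and, and_true]
        rw [show m₁ + (m₁ + e' + τ Y) + τ Y = e' + m₁ + m₁ + τ Y + τ Y by abel, va, va,
          show m₁ + e' + τ Y + (m₃ + (m₁ + e' + τ Y) + τ Z') + τ Z'
            = m₃ + m₁ + m₁ + e' + e' + τ Y + τ Y + τ Z' + τ Z' by abel, va, va, va, va]
        exact ⟨rfl, rfl⟩ }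
  have hL : ∑ ω : A × A × A × (Fin k → ZMod 2), ∑ Y, ∑ m₃, ∑ m₁,
      L ω.1 ω.2.1 ω.2.2.1 ω.2.2.2 Y m₁ m₃
      = ∑ t : (A × A × A × (Fin k → ZMod 2)) × A × (Fin k → ZMod 2) × (Fin k → ZMod 2),
        L t.1.1 t.1.2.1 t.1.2.2.1 t.1.2.2.2 t.2.1 t.2.2.2 t.2.2.1 := by
    simp only [Fintype.sum_prod_type]
  have hR : ∑ ω : A × A × (Fin k → ZMod 2), ∑ Z', ∑ m₂, ∑ Z, ∑ m₁,
        L ω.1 Z Z' (m₁ + m₂ + τ ω.2.1) ω.2.1 m₁ (m₂ + ω.2.2 + τ Z')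
      = ∑ t : (A × A × (Fin k → ZMod 2)) × A × (Fin k → ZMod 2) × A × (Fin k → ZMod 2),
        L t.1.1 t.2.2.2.1 t.2.1 (t.2.2.2.2 + t.2.2.1 + τ t.1.2.1) t.1.2.1 t.2.2.2.2
          (t.2.2.1 + t.1.2.2 + τ t.2.1) := by
    simp only [Fintype.sum_prod_type]
  rw [hL, hR]
  refine (Fintype.sum_equiv e _ _ ?_).symm
  rintro ⟨⟨X, Y, e⟩, Z', m₂, Z, m₁⟩
  rfl

lemma step3 (p q r : A → ℝ) (τ : A → (Fin k → ZMod 2))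
    (F : A → A → A → (Fin k → ZMod 2) → ℝ) :
    ∑ ω : A × A × A × (Fin k → ZMod 2),
      (p ω.1 * r ω.2.1 * r ω.2.2.1 * (Fintype.card (Fin k → ZMod 2) : ℝ)⁻¹) *
      (∑ Y, q Y * ((𝔼 m₁, F ω.1 Y ω.2.1 m₁ * F ω.1 Y ω.2.2.1 (m₁ + ω.2.2.2 + τ Y)) *
       (𝔼 m₃, F ω.1 Y ω.2.2.1 m₃ * F ω.1 Y ω.2.1
        (m₃ + ω.2.2.2 + τ Y + τ ω.2.1 + τ ω.2.2.1))))
    = ∑ ω : A × A × (Fin k → ZMod 2),
      (p ω.1 * q ω.2.1 * (Fintype.card (Fin k → ZMod 2) : ℝ)⁻¹) *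
      (∑ Z, r Z * 𝔼 m, F ω.1 ω.2.1 Z m * F ω.1 ω.2.1 Z (m + ω.2.2 + τ Z)) ^ 2 := by
  classical
  simp only [Finset.expect_eq_sum_div_card, div_eq_mul_inv, Finset.sum_mul, Finset.mul_sum,
    Finset.card_univ, pow_two]
  refine (reorder3 (fun X Z Z' e' Y m₁ m₃ =>
    (p X * r Z * r Z' * (Fintype.card (Fin k → ZMod 2) : ℝ)⁻¹) *
      (q Y * (F X Y Z m₁ * F X Y Z' (m₁ + e' + τ Y) * (Fintype.card (Fin k → ZMod 2) : ℝ)⁻¹ *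
        (F X Y Z' m₃ * F X Y Z (m₃ + e' + τ Y + τ Z + τ Z') *
        (Fintype.card (Fin k → ZMod 2) : ℝ)⁻¹)))) τ).trans ?_
  refine Finset.sum_congr rfl fun ω _ => Finset.sum_congr rfl fun Z' _ =>
    Finset.sum_congr rfl fun m₂ _ => Finset.sum_congr rfl fun Z _ =>
    Finset.sum_congr rfl fun m₁ _ => ?_
  rw [show m₂ + ω.2.2 + τ Z' + (m₁ + m₂ + τ ω.2.1) + τ ω.2.1 + τ Z + τ Z'
      = m₁ + ω.2.2 + τ Z + m₂ + m₂ + τ Z' + τ Z' + τ ω.2.1 + τ ω.2.1 by abel, va, va, va,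
    show m₁ + (m₁ + m₂ + τ ω.2.1) + τ ω.2.1 = m₂ + m₁ + m₁ + τ ω.2.1 + τ ω.2.1 by abel, va, va]
  ring

lemma jensen {Ω : Type*} [Fintype Ω] (w f : Ω → ℝ) (hw : ∀ i, 0 ≤ w i) (h1 : ∑ i, w i = 1) :
    (∑ i, w i * f i) ^ 2 ≤ ∑ i, w i * f i ^ 2 := by
  obtain ⟨μ, hμ⟩ : ∃ μ, μ = ∑ i, w i * f i := ⟨_, rfl⟩
  have h : 0 ≤ ∑ i, w i * (f i - μ) ^ 2 :=
    Finset.sum_nonneg fun i _ => mul_nonneg (hw i) (sq_nonneg _)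
  have e : ∑ i, w i * (f i - μ) ^ 2 = ∑ i, w i * f i ^ 2 - 2 * μ * (∑ i, w i * f i)
      + μ ^ 2 * ∑ i, w i := by
    rw [Finset.mul_sum, Finset.mul_sum, ← Finset.sum_sub_distrib, ← Finset.sum_add_distrib]
    exact Finset.sum_congr rfl fun i _ => by ring
  rw [e, h1, ← hμ] at h
  rw [← hμ]
  nlinarith

lemma expect_mem {Ω : Type*} [Fintype Ω] [Nonempty Ω] (f : Ω → ℝ) (hf : ∀ i, 0 ≤ f i ∧ f i ≤ 1) :
    0 ≤ 𝔼 i, f i ∧ 𝔼 i, f i ≤ 1 := by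
  constructor
  · exact Finset.expect_nonneg fun i _ => (hf i).1
  · exact Finset.expect_le Finset.univ_nonempty fun i _ => (hf i).2

lemma sq_avg (F : (Fin k → ZMod 2) → ℝ) (c : Fin k → ZMod 2) :
    𝔼 e, 𝔼 m, F m * F (m + e + c) = (𝔼 m, F m) ^ 2 := by
  classical
  rw [Finset.expect_comm, pow_two]
  have : ∀ m, 𝔼 e, F m * F (m + e + c) = F m * 𝔼 m, F m := by
    intro m
    rw [← Finset.mul_expect]
    congr 1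
    refine Fintype.expect_equiv (Equiv.addLeft (m + c)) _ _ fun e => ?_
    simp only [Equiv.coe_addLeft]
    congr 1
    abel
  simp only [this]
  rw [← Finset.expect_mul]

theorem li (hC : T_COLL) : T_LI := by
  intro A _ k p q r τ F hp hp1 hq hq1 hr hr1 hF
  classical
  have hN : (0 : ℝ) < Fintype.card (Fin k → ZMod 2) := by exact_mod_cast Fintype.card_pos
  have hN' : (0 : ℝ) ≤ (Fintype.card (Fin k → ZMod 2) : ℝ)⁻¹ := by positivity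
  have hFF : ∀ a b c m a' b' c' m', 0 ≤ F a b c m * F a' b' c' m' ∧
      F a b c m * F a' b' c' m' ≤ 1 := fun a b c m a' b' c' m' =>
    ⟨mul_nonneg (hF _ _ _ _).1 (hF _ _ _ _).1,
      mul_le_one₀ (hF _ _ _ _).2 (hF _ _ _ _).1 (hF _ _ _ _).2⟩
  -- step 1
  have s1 := hC (A × A × A × A × (Fin k → ZMod 2)) A
    (fun ω => q ω.1 * q ω.2.1 * r ω.2.2.1 * r ω.2.2.2.1 *
      (Fintype.card (Fin k → ZMod 2) : ℝ)⁻¹) p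
    (fun ω X => 𝔼 m₁, F X ω.1 ω.2.2.1 m₁ * F X ω.2.1 ω.2.2.2.1 (m₁ + ω.2.2.2.2 + τ X))
    (fun ω X => 𝔼 m₂, F X ω.1 ω.2.2.2.1 m₂ * F X ω.2.1 ω.2.2.1
        (m₂ + ω.2.2.2.2 + τ X + τ ω.1 + τ ω.2.1 + τ ω.2.2.1 + τ ω.2.2.2.1))
    (fun ω => by
      have := hq ω.1; have := hq ω.2.1; have := hr ω.2.2.1; have := hr ω.2.2.2.1
      positivity)
    (by
      simp only [Fintype.sum_prod_type, Finset.sum_const, Finset.card_univ, nsmul_eq_mul,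
        ← Finset.mul_sum, ← Finset.sum_mul, hr1, hq1]
      field_simp) hp hp1 (fun ω X => expect_mem _ fun m => hFF _ _ _ _ _ _ _ _)
    (fun ω X => expect_mem _ fun m => hFF _ _ _ _ _ _ _ _)
  rw [← step1, step2] at s1
  -- step 2
  have s2 := hC (A × A × A × (Fin k → ZMod 2)) A
    (fun ω => p ω.1 * r ω.2.1 * r ω.2.2.1 * (Fintype.card (Fin k → ZMod 2) : ℝ)⁻¹) q
    (fun ω Y => 𝔼 m₁, F ω.1 Y ω.2.1 m₁ * F ω.1 Y ω.2.2.1 (m₁ + ω.2.2.2 + τ Y))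
    (fun ω Y => 𝔼 m₃, F ω.1 Y ω.2.2.1 m₃ * F ω.1 Y ω.2.1
        (m₃ + ω.2.2.2 + τ Y + τ ω.2.1 + τ ω.2.2.1))
    (fun ω => by
      have := hp ω.1; have := hr ω.2.1; have := hr ω.2.2.1
      positivity)
    (by
      simp only [Fintype.sum_prod_type, Finset.sum_const, Finset.card_univ, nsmul_eq_mul,
        ← Finset.mul_sum, ← Finset.sum_mul, hr1, hp1]
      field_simp) hq hq1 (fun ω X => expect_mem _ fun m => hFF _ _ _ _ _ _ _ _)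
    (fun ω X => expect_mem _ fun m => hFF _ _ _ _ _ _ _ _)
  rw [step3] at s2
  -- step 3
  have s3 := jensen (fun ω : A × A × (Fin k → ZMod 2) =>
      p ω.1 * q ω.2.1 * (Fintype.card (Fin k → ZMod 2) : ℝ)⁻¹)
    (fun ω => ∑ Z, r Z * 𝔼 m, F ω.1 ω.2.1 Z m * F ω.1 ω.2.1 Z (m + ω.2.2 + τ Z))
    (fun ω => by
      have := hp ω.1; have := hq ω.2.1
      positivity)
    (by
      simp only [Fintype.sum_prod_type, Finset.sum_const, Finset.card_univ, nsmul_eq_mul,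
        ← Finset.mul_sum, ← Finset.sum_mul, hp1, hq1]
      field_simp)
  have s4 := jensen (fun ω : A × A × A => p ω.1 * q ω.2.1 * r ω.2.2)
    (fun ω => 𝔼 m, F ω.1 ω.2.1 ω.2.2 m)
    (fun ω => by
      have := hp ω.1; have := hq ω.2.1; have := hr ω.2.2
      positivity)
    (by
      simp only [Fintype.sum_prod_type, ← Finset.mul_sum, hr1, hp1, hq1, mul_one])
  have e4 : ∑ ω : A × A × A, (p ω.1 * q ω.2.1 * r ω.2.2) * (𝔼 m, F ω.1 ω.2.1 ω.2.2 m)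
      = MM p q r F := by
    unfold MM
    simp only [Fintype.sum_prod_type]
  have e3 : ∑ ω : A × A × (Fin k → ZMod 2), (p ω.1 * q ω.2.1 *
      (Fintype.card (Fin k → ZMod 2) : ℝ)⁻¹) *
      (∑ Z, r Z * 𝔼 m, F ω.1 ω.2.1 Z m * F ω.1 ω.2.1 Z (m + ω.2.2 + τ Z))
      = ∑ ω : A × A × A, (p ω.1 * q ω.2.1 * r ω.2.2) * (𝔼 m, F ω.1 ω.2.1 ω.2.2 m) ^ 2 := by
    simp only [Fintype.sum_prod_type]
    refine Finset.sum_congr rfl fun X _ => Finset.sum_congr rfl fun Y _ => ?_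
    simp only [Finset.mul_sum]
    rw [Finset.sum_comm]
    refine Finset.sum_congr rfl fun Z _ => ?_
    rw [← sq_avg (F X Y Z) (τ Z), Finset.expect_eq_sum_div_card (s := Finset.univ), div_eq_inv_mul,
      Finset.mul_sum, Finset.mul_sum, Finset.card_univ]
    exact Finset.sum_congr rfl fun e _ => by ring
  rw [e3] at s3
  rw [e4] at s4
  set T2 := ∑ ω : A × A × (Fin k → ZMod 2),
      (p ω.1 * q ω.2.1 * (Fintype.card (Fin k → ZMod 2) : ℝ)⁻¹) *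
      (∑ Z, r Z * 𝔼 m, F ω.1 ω.2.1 Z m * F ω.1 ω.2.1 Z (m + ω.2.2 + τ Z)) ^ 2 with hT2
  set M := MM p q r F with hM
  set T := TM p q r τ F with hT
  have b1 : M ^ 4 ≤ T2 := by
    refine le_trans ?_ s3
    calc M ^ 4 = (M ^ 2) ^ 2 := by ring
      _ ≤ _ := by
        gcongr
  have b2 := s2
  have hM0 : 0 ≤ M ^ 4 := by positivity
  calc M ^ 16 = ((M ^ 4) ^ 2) ^ 2 := by ring
    _ ≤ (T2 ^ 2) ^ 2 := by gcongr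
    _ ≤ _ := by
      refine le_trans ?_ s1
      gcongr

end

end Pool.Agent.H19.SQ
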