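import Pool.Agent.H75.SQ.Basic

/-!
# MP_0f8dca_lc, board qst_modules: row LOW
-/

set_option autoImplicit false

open Finset Matrix Pool.Agent.H75.SQ

namespace Pool.Agent.H19.SQ.LOW

/-- the law of a planted formula -/
private noncomputable def pp {n k : ℕ} (Q : (Fin k → Bool) → ℝ) (m : ℕ)
    (ω : (Fin n → Bool) × (Fin m → Cl n k)) : ℝ := (∏ j, pc Q ω.1 (ω.2 j)) / 2 ^ n

private theorem sum_pp {n k : ℕ} (Q : (Fin k → Bool) → ℝ) (m : ℕ)
    (p : (Fin m → Cl n k) → Prop) :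
    ∑ ω : (Fin n → Bool) × (Fin m → Cl n k), pp Q m ω * ind (p ω.2) = Ppl Q m p := by
  unfold Ppl EF pp
  rw [Fintype.sum_prod_type, Finset.sum_div]
  refine Finset.sum_congr rfl fun z _ => ?_
  rw [Finset.sum_div]
  refine Finset.sum_congr rfl fun F _ => ?_
  ring

private theorem Pw_pp {n k : ℕ} (Q : (Fin k → Bool) → ℝ) (m : ℕ)
    (h : ∀ z : Fin n → Bool, Pw (pc Q z)) : Pw (pp Q m : (Fin n → Bool) × (Fin m → Cl n k) → ℝ) := by
  constructor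
  · intro ω
    exact div_nonneg (Finset.prod_nonneg fun _ _ => (h _).1 _) (by positivity)
  · unfold pp
    rw [Fintype.sum_prod_type]
    have h1 : ∀ z : Fin n → Bool, ∑ F : Fin m → Cl n k, (∏ j, pc Q z (F j)) / 2 ^ n =
        1 / 2 ^ n := by
      intro z
      rw [← Finset.sum_div, sum_prod _ (h z)]
    rw [Finset.sum_congr rfl fun z _ => h1 z, Finset.sum_const, nsmul_eq_mul, Finset.card_univ,
      Fintype.card_fun, Fintype.card_bool, Fintype.card_fin]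
    push_cast
    have h2 : (2 : ℝ) ^ n ≠ 0 := by positivity
    field_simp

private theorem Ppl_one {n k : ℕ} (Q : (Fin k → Bool) → ℝ) (m : ℕ)
    (h : ∀ z : Fin n → Bool, Pw (pc Q z)) (p₁ p₂ p₃ : (Fin m → Cl n k) → Prop)
    (hp : ∀ F, ¬ p₂ F → ¬ p₃ F → p₁ F) : 1 ≤ Ppl Q m p₁ + Ppl Q m p₂ + Ppl Q m p₃ := by
  rw [← sum_pp, ← sum_pp, ← sum_pp, ← Finset.sum_add_distrib, ← Finset.sum_add_distrib,
    ← (Pw_pp Q m h).2]
  refine Finset.sum_le_sum fun ω _ => ?_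
  have h0 := (Pw_pp Q m h).1 ω
  have h1 : 1 ≤ ind (p₁ ω.2) + ind (p₂ ω.2) + ind (p₃ ω.2) := by
    have i1 := ind_nonneg (p₁ ω.2)
    have i2 := ind_nonneg (p₂ ω.2)
    have i3 := ind_nonneg (p₃ ω.2)
    by_cases h2 : p₂ ω.2
    · rw [ind_true _ h2]; linarith
    · by_cases h3 : p₃ ω.2
      · rw [ind_true _ h3]; linarith
      · rw [ind_true _ (hp _ h2 h3)]; linarith
  nlinarith

private theorem Pun_one {n k : ℕ} (m : ℕ) (h : Pw (uc : Cl n k → ℝ))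
    (p₁ p₂ p₃ : (Fin m → Cl n k) → Prop)
    (hp : ∀ F, ¬ p₂ F → ¬ p₃ F → p₁ F) : 1 ≤ Pun m p₁ + Pun m p₂ + Pun m p₃ := by
  unfold Pun
  rw [← EF_add, ← EF_add]
  have h0 := EF_const uc h m (1 : ℝ)
  rw [← h0]
  refine EF_mono uc h.1 m _ _ fun F => ?_
  have i1 := ind_nonneg (p₁ F)
  have i2 := ind_nonneg (p₂ F)
  have i3 := ind_nonneg (p₃ F)
  by_cases h2 : p₂ F
  · rw [ind_true _ h2]; linarith
  · by_cases h3 : p₃ F
    · rw [ind_true _ h3]; linarith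
    · rw [ind_true _ (hp _ h2 h3)]; linarith

theorem pf_LOW (hBAD : T_BAD) (hHYB : T_HYB) (hUNS : T_UNS) (hWTS : T_WTS) : T_LOW := by
  classical
  intro n k r q m Q Λ κ τ ε A T hn hm hQ hΛ hτ hτ1 hκ h1 h2 hε hfin
  set P : ℝ := 64 / τ ^ 2 * Λ ^ q * far n κ / 2 ^ n +
      2 * Real.exp (-(τ ^ 2 * m / (27648 * (q + 1) ^ 4))) with hP
  have hpw : ∀ z : Fin n → Bool, Pw (pc Q z) := fun z => (hWTS n k r Q z hn hQ).2.1
  have huw : Pw (uc : Cl n k → ℝ) := (hWTS n k r Q (fun _ => false) hn hQ).1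
  have hΛ1 : 1 ≤ Λ := (hWTS n k r Q (fun _ => false) hn hQ).2.2.2.2.2.1.trans hΛ
  let v0 : Fin A.a → ℝ := fun i => mu uc q (tst (A.M i))
  let v : (Fin m → Cl n k) → Fin A.a → ℝ := fun F i =>
    if |v0 i - ex F (A.M i)| ≤ τ then v0 i else ex F (A.M i)
  have hadm : ∀ F, Adm A τ F (v F) := by
    intro F i
    change |(if |v0 i - ex F (A.M i)| ≤ τ then v0 i else ex F (A.M i)) - ex F (A.M i)| ≤ τ
    split_ifs with h
    · exact h
    · rw [sub_self, abs_zero]; exact hτ.le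
  have hne : ∀ F i, v F i ≠ v0 i → τ < |ex F (A.M i) - mu uc q (tst (A.M i))| := by
    intro F i h
    by_contra hc
    push Not at hc
    apply h
    change (if |v0 i - ex F (A.M i)| ≤ τ then v0 i else ex F (A.M i)) = v0 i
    rw [if_pos]
    rw [abs_sub_comm]
    exact hc
  have hbad := fun i => hBAD n k r q m Q Λ κ τ (A.M i) hn hm hQ hΛ hτ hτ1 hκ h1 h2 (A.obs i)
  have hP0 : (0 : ℝ) ≤ 64 / τ ^ 2 * Λ ^ q * far n κ / 2 ^ n := by positivity
  have hB1 := hHYB (Cl n k) q m A ((Fin n → Bool) × (Fin m → Cl n k)) (pp Q m)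
    (fun ω => v ω.2) v0 T P ε (Pw_pp Q m hpw) hε (by
      intro i
      refine le_trans ?_ (hbad i).1
      rw [← sum_pp]
      refine Finset.sum_le_sum fun ω _ => mul_le_mul_of_nonneg_left ?_ ((Pw_pp Q m hpw).1 ω)
      exact ind_mono _ _ (hne ω.2 i))
  have hB2 := hHYB (Cl n k) q m A (Fin m → Cl n k) (fun F => ∏ j, uc (F j)) v v0 T P ε
    ⟨fun F => Finset.prod_nonneg fun _ _ => huw.1 _, sum_prod uc huw m⟩ hε (by
      intro i
      have h3 : ∑ F : Fin m → Cl n k, (∏ j, uc (F j)) * ind (v F i ≠ v0 i) ≤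
          Pun m (fun F : Fin m → Cl n k => τ < |ex F (A.M i) - mu uc q (tst (A.M i))|) :=
        EF_mono uc huw.1 m _ _ fun F => ind_mono _ _ (hne F i)
      have h4 := (hbad i).2
      linarith)
  have hB1' : Ppl Q m (fun F : Fin m → Cl n k => ε < |A.pr T (v F) - A.pr T v0|) ≤
      16 * T ^ 2 * P / ε ^ 2 := by
    rw [← sum_pp]
    exact hB1
  have hB2' : Pun m (fun F : Fin m → Cl n k => ε < |A.pr T (v F) - A.pr T v0|) ≤
      16 * T ^ 2 * P / ε ^ 2 := hB2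
  have hU := hUNS n k m hn
  have hU2 := hU.2 r Q hQ
  have h5 := Ppl_one Q m hpw
    (fun F => Sat F ∧ ∃ v, Adm A τ F v ∧ |A.pr T v - A.pr T v0| ≤ ε) (fun F => ¬ Sat F)
    (fun F => ε < |A.pr T (v F) - A.pr T v0|) (fun F h6 h7 =>
      ⟨not_not.1 h6, v F, hadm F, not_lt.1 h7⟩)
  have h6 := Pun_one m huw
    (fun F => ¬ Sat F ∧ ∃ v, Adm A τ F v ∧ |A.pr T v - A.pr T v0| ≤ ε) (fun F => Sat F)
    (fun F => ε < |A.pr T (v F) - A.pr T v0|) (fun F h6 h7 =>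
      ⟨h6, v F, hadm F, not_lt.1 h7⟩)
  have h7 : (0 : ℝ) ≤ 2 ^ n * Real.exp (-(m / 2 ^ k)) := by positivity
  refine ⟨A.pr T v0, ?_, ?_⟩
  · linarith
  · linarith [hU.1]

end Pool.Agent.H19.SQ.LOW
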