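import Pool.Agent.H81.SQ.Targets
import Pool.Agent.H19.SQP.TriB

/-!
# Module LP: the trilinear bound
-/

namespace Pool.Agent.H19.SQ

open Pool.Agent.H81.SQ
open scoped BigOperators

lemma sg_cast (a : ZMod 2) : SQP.sg a = ((H36Sq.sg a : ℝ) : ℂ) := by
  unfold SQP.sg H36Sq.sg
  split_ifs <;> simp

theorem lp : T_LP := by
  intro G _ _ _ L a b c ha hb hc
  have h := SQP.tri_bound L (fun x => (a x : ℂ)) (fun x => (b x : ℂ)) (fun x => (c x : ℂ))
    (fun x => by rw [Complex.norm_real]; exact ha x)
    (fun x => by rw [Complex.norm_real]; exact hb x)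
    (fun x => by rw [Complex.norm_real]; exact hc x)
  have e : (∑ h, ∑ k, (a h : ℂ) * b k * c (h + k) * SQP.sg (L h k))
      = ((∑ h, ∑ k, a h * b k * c (h + k) * H36Sq.sg (L h k) : ℝ) : ℂ) := by
    push_cast
    refine Finset.sum_congr rfl fun h _ => Finset.sum_congr rfl fun k _ => ?_
    rw [sg_cast]
  rw [e, Complex.norm_real, Real.norm_eq_abs] at h
  have hcard : Nat.card {x : G // ∀ y, L x y + L y x = 0} = Fintype.card (rad L) := by
    rw [← Nat.card_eq_fintype_card]
    refine Nat.card_congr (Equiv.subtypeEquivRight fun x => ?_)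
    change (∀ y, L x y + L y x = 0) ↔ (∀ y, L x y = L y x)
    refine forall_congr' fun y => ?_
    have : ∀ a b : ZMod 2, a + b = 0 ↔ a = b := by decide
    exact this _ _
  rw [hcard] at h
  have hN : (0 : ℝ) < Fintype.card G := by exact_mod_cast Fintype.card_pos
  simp only [Finset.expect_eq_sum_div_card, Finset.card_univ]
  have hNN : (0 : ℝ) ≤ (Fintype.card G : ℝ) * Fintype.card G := by positivity
  rw [← Finset.sum_div, div_div, abs_div, div_pow, abs_of_nonneg hNN,
    div_le_div_iff₀ (by positivity) hN]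
  calc _ ≤ ((Fintype.card G : ℝ) ^ 7 * Fintype.card (rad L)) * Fintype.card G := by gcongr
    _ = _ := by ring

end Pool.Agent.H19.SQ
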