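import Pool.Agent.H75.SQ.Basic

/-!
# MP_0f8dca_lc, board qst_modules: row REA
-/

set_option autoImplicit false

open Finset Matrix Pool.Agent.H75.SQ

namespace Pool.Agent.H19.SQ.REA

theorem nm_nonneg {ι : Type} [Fintype ι] (a : ι → ℂ) : 0 ≤ nm a := Real.sqrt_nonneg _

theorem nm_mono {ι : Type} [Fintype ι] (a b : ι → ℂ) (h : ∀ x, ‖a x‖ ≤ ‖b x‖) : nm a ≤ nm b :=
  Real.sqrt_le_sqrt (Finset.sum_le_sum fun x _ =>
    pow_le_pow_left₀ (norm_nonneg _) (h x) 2)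

theorem pj_norm {γ : Type} {m q : ℕ} (a : (Fin q → Fin m × γ) → ℂ) (s : Fin q → Fin m × γ) :
    ‖pj a s‖ ≤ ‖a s‖ := by
  unfold pj
  split_ifs
  · exact le_rfl
  · rw [norm_zero]; exact norm_nonneg _

theorem pj_sub {γ : Type} {m q : ℕ} (a b : (Fin q → Fin m × γ) → ℂ) (s : Fin q → Fin m × γ) :
    pj a s - pj b s = pj (fun s => a s - b s) s := by
  unfold pj
  split_ifs
  · rfl
  · rw [sub_zero]

theorem pf_REA (hOPN : T_OPN) (hTPW : T_TPW) (hNRM : T_NRM) : T_REA := by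
  intro γ _ _ m q F w M hm hM hq
  obtain ⟨n1, n2, n3, -, -, n6⟩ := hNRM γ m q F w M hm hM
  obtain ⟨t1, t2, t3⟩ := hTPW (Fin m × γ) q (fun _ => fs F) (fun _ => uv w F) (dl w)
    (fun _ => n1.le) (fun _ => n3.le) hq
  have a1 := hOPN _ M hM (fq q F) (pj (fq q F))
  have a2 := hOPN _ M hM (pj (fq q F)) (pj fun s => ∏ i, uv w F (s i))
  have b1 : nm (pj (fq q F)) ≤ 1 := (nm_mono _ _ (pj_norm _)).trans n2.le
  have b2 : nm (pj fun s => ∏ i, uv w F (s i)) ≤ 2 := (nm_mono _ _ (pj_norm _)).trans t3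
  have b3 : nm (fun s => pj (fq q F) s - pj (fun s => ∏ i, uv w F (s i)) s) ≤ 2 * q * dl w := by
    simp only [pj_sub]
    exact (nm_mono _ _ (pj_norm _)).trans t1
  have c1 : |qf M (fq q F) - qf M (pj (fq q F))| ≤ 3 / 2 * q / Real.sqrt m := by
    refine a1.trans ?_
    have h1 : (nm (fq q F) + nm (pj (fq q F))) * nm (fun x => fq q F x - pj (fq q F) x) ≤
        2 * (q / Real.sqrt (2 * m)) :=
      mul_le_mul (by linarith) n6 (nm_nonneg _) (by norm_num)
    refine h1.trans ?_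
    have hm' : (0 : ℝ) < Real.sqrt m := Real.sqrt_pos.2 (by exact_mod_cast hm)
    have h2 : Real.sqrt (2 * m) = Real.sqrt 2 * Real.sqrt m := Real.sqrt_mul (by norm_num) _
    have h3 : (4 / 3 : ℝ) ≤ Real.sqrt 2 := by
      rw [show (4 / 3 : ℝ) = Real.sqrt ((4 / 3) ^ 2) by rw [Real.sqrt_sq (by norm_num)]]
      exact Real.sqrt_le_sqrt (by norm_num)
    rw [h2, ← div_div, mul_div_assoc', div_le_div_iff_of_pos_right hm', mul_div_assoc',
      div_le_iff₀ (by positivity)]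
    have h4 : (0 : ℝ) ≤ q := Nat.cast_nonneg _
    nlinarith
  have c2 : |qf M (pj (fq q F)) - qf M (pj fun s => ∏ i, uv w F (s i))| ≤ 6 * q * dl w := by
    refine a2.trans ?_
    have h1 : (nm (pj (fq q F)) + nm (pj fun s => ∏ i, uv w F (s i))) *
        nm (fun s => pj (fq q F) s - pj (fun s => ∏ i, uv w F (s i)) s) ≤ 3 * (2 * q * dl w) :=
      mul_le_mul (by linarith) b3 (nm_nonneg _) (by norm_num)
    linarith
  have c3 := abs_sub_le (qf M (fq q F)) (qf M (pj (fq q F)))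
    (qf M (pj fun s => ∏ i, uv w F (s i)))
  unfold ex
  linarith

end Pool.Agent.H19.SQ.REA
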