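import Pool.Agent.H75.SQ.Basic

/-!
# MP_0f8dca_lc, board qst_modules: row RED
-/

set_option autoImplicit false

open Finset Matrix Pool.Agent.H75.SQ

namespace Pool.Agent.H19.SQ.RED

/-- the injective maps -/
private noncomputable def J (q m : ℕ) : Finset (Fin q → Fin m) :=
  (Set.toFinite {j : Fin q → Fin m | Function.Injective j}).toFinset

private theorem mem_J {q m : ℕ} (j : Fin q → Fin m) : j ∈ J q m ↔ Function.Injective j := by
  unfold J
  rw [Set.Finite.mem_toFinset]
  rfl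

private theorem tst_eq {γ : Type} [Fintype γ] [DecidableEq γ] {m q : ℕ}
    (M : Matrix (Fin q → Fin m × γ) (Fin q → Fin m × γ) ℂ) (A : Fin q → γ) :
    tst M A = (∑ j ∈ J q m, qf M (sy j A)) / ((J q m).card : ℝ) := by
  classical
  have h : (univ.filter fun j : Fin q → Fin m => Function.Injective j) = J q m := by
    ext j
    rw [mem_J, Finset.mem_filter]
    exact ⟨fun h => h.2, fun h => ⟨Finset.mem_univ _, h⟩⟩
  rw [← h]
  unfold tst
  congr

private theorem card_J (q m : ℕ) : ((J q m).card : ℝ) ≤ (m : ℝ) ^ q := by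
  have h1 : (J q m).card ≤ Fintype.card (Fin q → Fin m) := Finset.card_le_univ _
  rw [Fintype.card_fun, Fintype.card_fin, Fintype.card_fin] at h1
  exact_mod_cast h1

private theorem ncard_J (q m : ℕ) :
    ({j : Fin q → Fin m | Function.Injective j}.ncard : ℝ) = ((J q m).card : ℝ) := by
  rw [Set.ncard_eq_toFinset_card _ (Set.toFinite _)]
  rfl

theorem pf_RED (hNRM : T_NRM) (hREA : T_REA) (hREB : T_REB) (hREC : T_REC) : T_RED := by
  intro γ _ _ m q w M hm hw hM hq
  have hγ : Nonempty γ := by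
    by_contra hc
    rw [not_nonempty_iff] at hc
    have h := hw.2
    rw [Finset.univ_eq_empty, Finset.sum_empty] at h
    exact zero_ne_one h
  obtain ⟨C0⟩ := hγ
  have hm0 : (0 : ℝ) < m := by exact_mod_cast hm
  have hmq : (0 : ℝ) < (m : ℝ) ^ q := by positivity
  have hs1 : ∀ j ∈ J q m, ∀ A : Fin q → γ, |qf M (sy j A)| ≤ 1 := fun j hj =>
    (hREC γ m q (fun _ => C0) w M j hM ((mem_J j).1 hj) hq).2
  have htst : ∀ A, |tst M A| ≤ 1 := by
    intro A
    rw [tst_eq, abs_div, abs_of_nonneg (show (0 : ℝ) ≤ ((J q m).card : ℝ) from Nat.cast_nonneg _)]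
    refine div_le_one_of_le₀ ?_ (Nat.cast_nonneg _)
    refine (Finset.abs_sum_le_sum_abs _ _).trans ?_
    have h := Finset.sum_le_sum fun j hj => hs1 j hj A
    rw [Finset.sum_const, nsmul_eq_mul, mul_one] at h
    exact h
  refine ⟨htst, ?_⟩
  have hdl : 0 ≤ dl w := Real.sqrt_nonneg _
  have hq0 : (0 : ℝ) ≤ q := Nat.cast_nonneg _
  have hcJ := card_J q m
  have hcJ0 : (0 : ℝ) ≤ ((J q m).card : ℝ) := Nat.cast_nonneg _
  -- first step
  have e1 : |EF w m (fun F => ex F M) - EF w m (fun F => qf M (pj fun s => ∏ i, uv w F (s i)))| ≤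
      3 / 2 * q / Real.sqrt m + 6 * q * dl w := by
    rw [← EF_sub]
    exact EF_abs_le w hw m _ _ fun F => hREA γ m q F w M hm hM hq
  have e2 := hREB γ m q w M hm hw
  -- second step
  have e3 : |EF w m (fun F => (∑ j ∈ J q m, qf M (syc w F j)) / m ^ q) -
      EF w m (fun F => (∑ j ∈ J q m, qf M (sy j (fun i => F (j i)))) / m ^ q)| ≤
      6 * q * dl w := by
    rw [← EF_sub]
    refine EF_abs_le w hw m _ _ fun F => ?_
    rw [← sub_div, ← Finset.sum_sub_distrib, abs_div, abs_of_pos hmq, div_le_iff₀ hmq]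
    refine (Finset.abs_sum_le_sum_abs _ _).trans ?_
    have h := Finset.sum_le_sum fun j hj =>
      (hREC γ m q F w M j hM ((mem_J (q := q) (m := m) j).1 hj) hq).1
    rw [Finset.sum_const, nsmul_eq_mul] at h
    refine h.trans ?_
    rw [mul_comm]
    exact mul_le_mul_of_nonneg_left hcJ (by positivity)
  -- third step
  have e4 : EF w m (fun F => (∑ j ∈ J q m, qf M (sy j (fun i => F (j i)))) / m ^ q) =
      ((J q m).card : ℝ) / m ^ q * mu w q (tst M) := by
    have h1 : EF w m (fun F => (∑ j ∈ J q m, qf M (sy j (fun i => F (j i)))) / m ^ q) =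
        1 / m ^ q * ∑ j ∈ J q m, EF w q (fun A => qf M (sy j A)) := by
      have h2 : (fun F : Fin m → γ => (∑ j ∈ J q m, qf M (sy j (fun i => F (j i)))) /
          (m : ℝ) ^ q) = fun F => 1 / (m : ℝ) ^ q *
            ∑ j ∈ J q m, qf M (sy j (fun i => F (j i))) := by
        funext F
        ring
      rw [h2, EF_mul, EF_sum]
      congr 1
      refine Finset.sum_congr rfl fun j hj => ?_
      exact EF_inj w hw m q j ((mem_J j).1 hj) (fun A => qf M (sy j A))
    have h3 : ∑ j ∈ J q m, EF w q (fun A => qf M (sy j A)) =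
        ((J q m).card : ℝ) * mu w q (tst M) := by
      rw [← EF_sum]
      unfold mu
      rw [← EF_mul]
      congr 1
      funext A
      rw [tst_eq]
      rcases Nat.eq_zero_or_pos (J q m).card with h0 | h0
      · rw [Finset.card_eq_zero.1 h0]
        simp
      · have h4 : ((J q m).card : ℝ) ≠ 0 := by exact_mod_cast h0.ne'
        rw [mul_div_cancel₀ _ h4]
    rw [h1, h3]
    ring
  -- fourth step
  have hmu : |mu w q (tst M)| ≤ 1 := EF_abs_le w hw q _ _ htst
  have h5 := (hNRM γ m q (fun _ => C0) w M hm hM).2.2.2.2.1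
  rw [ncard_J] at h5
  have hsm : (0 : ℝ) < Real.sqrt m := Real.sqrt_pos.2 hm0
  have h6 : 1 - ((J q m).card : ℝ) / m ^ q ≤ q / Real.sqrt m := by
    have h7 : (0 : ℝ) ≤ ((J q m).card : ℝ) / m ^ q := by positivity
    have hx : (0 : ℝ) ≤ q / Real.sqrt m := by positivity
    have h8 : (q : ℝ) ^ 2 / (2 * m) ≤ (q / Real.sqrt m) ^ 2 := by
      rw [div_pow, Real.sq_sqrt hm0.le]
      rw [div_le_div_iff₀ (by positivity) hm0]
      nlinarith [sq_nonneg (q : ℝ)]
    by_cases h9 : q / Real.sqrt m ≤ 1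
    · nlinarith
    · linarith
  have h10 : 0 ≤ 1 - ((J q m).card : ℝ) / m ^ q := by
    have : ((J q m).card : ℝ) / m ^ q ≤ 1 := div_le_one_of_le₀ hcJ hmq.le
    linarith
  have e5 : |((J q m).card : ℝ) / m ^ q * mu w q (tst M) - mu w q (tst M)| ≤
      q / Real.sqrt m := by
    have h11 : ((J q m).card : ℝ) / m ^ q * mu w q (tst M) - mu w q (tst M) =
        -((1 - ((J q m).card : ℝ) / m ^ q) * mu w q (tst M)) := by ring
    rw [h11, abs_neg, abs_mul, abs_of_nonneg h10]
    calc (1 - ((J q m).card : ℝ) / m ^ q) * |mu w q (tst M)|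
        ≤ (1 - ((J q m).card : ℝ) / m ^ q) * 1 := mul_le_mul_of_nonneg_left hmu h10
      _ ≤ q / Real.sqrt m := by rw [mul_one]; exact h6
  have e2' : EF w m (fun F => qf M (pj fun s => ∏ i, uv w F (s i))) =
      EF w m (fun F => (∑ j ∈ J q m, qf M (syc w F j)) / m ^ q) := e2
  rw [e2'] at e1
  rw [e4] at e3
  have h12 : 3 / 2 * (q : ℝ) / Real.sqrt m = 3 / 2 * (q / Real.sqrt m) := by ring
  have h13 : 3 * (q : ℝ) / Real.sqrt m = 3 * (q / Real.sqrt m) := by ring
  have hx : (0 : ℝ) ≤ q / Real.sqrt m := by positivity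
  rw [h12] at e1
  rw [h13]
  rw [abs_le] at e1 e3 e5 ⊢
  constructor <;> linarith [e1.1, e1.2, e3.1, e3.2, e5.1, e5.2]

end Pool.Agent.H19.SQ.RED
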