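import Pool.Agent.H45.SQ.Targets2

/-!
# Module RES: resampling one row
-/

namespace Pool.Agent.H19.SQ

open Finset Pool.Agent.H45.SQ
open scoped BigOperators ComplexConjugate

lemma sg_zero' : sg 0 = 1 := if_pos rfl

lemma sg_one' : sg 1 = -1 := if_neg one_ne_zero

lemma sg_add' (a b : ZMod 2) : sg (a + b) = sg a * sg b := by
  have h : ∀ a : ZMod 2, a = 0 ∨ a = 1 := by decide
  have h2 : (1 : ZMod 2) + 1 = 0 := rfl
  rcases h a with rfl | rfl <;> rcases h b with rfl | rfl <;>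
    simp [sg_zero', sg_one', h2]

lemma conj_sg' (a : ZMod 2) : conj (sg a) = sg a := by
  unfold sg
  split_ifs <;> simp

lemma norm_sg' (a : ZMod 2) : ‖sg a‖ = 1 := by
  unfold sg
  split_ifs <;> simp

section

variable {V : Type} [AddCommGroup V] [Module (ZMod 2) V]

lemma add_eq_zero' (v w : V) : v + w = 0 ↔ v = w := by
  have h : w + w = 0 := by
    have h : (2 : ZMod 2) • w = w + w := two_smul _ w
    rw [← h]
    have : (2 : ZMod 2) = 0 := rfl
    rw [this, zero_smul]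
  constructor
  · intro e
    calc v = v + (w + w) := by rw [h, add_zero]
      _ = (v + w) + w := by rw [add_assoc]
      _ = w := by rw [e, zero_add]
  · rintro rfl
    exact h

variable [Fintype V]

noncomputable instance instFintypeDual : Fintype (Module.Dual (ZMod 2) V) :=
  @Fintype.ofFinite _ (DFunLike.finite _)

lemma card_dual : Fintype.card (Module.Dual (ZMod 2) V) = Fintype.card V := by
  have h1 := Module.card_eq_pow_finrank (K := ZMod 2) (V := V)
  have h2 := Module.card_eq_pow_finrank (K := ZMod 2) (V := Module.Dual (ZMod 2) V)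
  rw [h1, h2, Subspace.dual_finrank_eq]

lemma sum_dual (v : V) [Decidable (v = 0)] :
    ∑ l : Module.Dual (ZMod 2) V, sg (l v) = if v = 0 then (Fintype.card V : ℂ) else 0 := by
  split_ifs with h
  · subst h
    simp [sg_zero', card_dual]
  · obtain ⟨l₀, hl₀⟩ : ∃ l : Module.Dual (ZMod 2) V, l v ≠ 0 := by
      by_contra hcon
      push Not at hcon
      exact h ((Module.forall_dual_apply_eq_zero_iff (ZMod 2) v).mp hcon)
    have h1 : l₀ v = 1 := by
      have : ∀ a : ZMod 2, a ≠ 0 → a = 1 := by decide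
      exact this _ hl₀
    have e : ∑ l : Module.Dual (ZMod 2) V, sg (l v) = ∑ l : Module.Dual (ZMod 2) V, sg ((l + l₀) v) :=
      (Equiv.sum_comp (Equiv.addRight l₀) (fun l : Module.Dual (ZMod 2) V => sg (l v))).symm
    have e2 : ∑ l : Module.Dual (ZMod 2) V, sg ((l + l₀) v)
        = - ∑ l : Module.Dual (ZMod 2) V, sg (l v) := by
      rw [← Finset.sum_neg_distrib]
      refine Finset.sum_congr rfl fun l _ => ?_
      rw [LinearMap.add_apply, sg_add', h1, sg_one', mul_neg_one]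
    rw [e2] at e
    exact self_eq_neg.mp e

/-- Fourier coefficients. -/
noncomputable def ft (F : V → ℂ) (l : Module.Dual (ZMod 2) V) : ℂ := 𝔼 v, F v * sg (l v)

lemma parseval (F : V → ℂ) : ∑ l, ‖ft F l‖ ^ 2 = 𝔼 v, ‖F v‖ ^ 2 := by
  classical
  have hN : (Fintype.card V : ℂ) ≠ 0 := by exact_mod_cast Fintype.card_ne_zero
  have h : ((∑ l, ‖ft F l‖ ^ 2 : ℝ) : ℂ) = ((𝔼 v, ‖F v‖ ^ 2 : ℝ) : ℂ) := by
    have e1 : ∀ l : Module.Dual (ZMod 2) V, ((‖ft F l‖ ^ 2 : ℝ) : ℂ)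
        = (Fintype.card V : ℂ)⁻¹ ^ 2 * ∑ v, ∑ w, F v * conj (F w) * sg (l (v + w)) := by
      intro l
      rw [← Complex.normSq_eq_norm_sq, ← Complex.mul_conj]
      unfold ft
      simp only [Finset.expect_eq_sum_div_card, map_div₀, map_sum, map_natCast, map_mul, conj_sg',
        Finset.card_univ]
      rw [div_mul_div_comm, Finset.sum_mul_sum, div_eq_inv_mul]
      congr 1
      · rw [mul_inv, pow_two]
      · refine Finset.sum_congr rfl fun v _ => Finset.sum_congr rfl fun w _ => ?_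
        rw [map_add, sg_add']
        ring
    push_cast
    have e2 : ∑ l : Module.Dual (ZMod 2) V, ((‖ft F l‖ : ℂ)) ^ 2
        = (Fintype.card V : ℂ)⁻¹ ^ 2 * ∑ v, ∑ w, F v * conj (F w)
          * (if v = w then (Fintype.card V : ℂ) else 0) := by
      have : ∀ l : Module.Dual (ZMod 2) V, ((‖ft F l‖ : ℂ)) ^ 2
        = (Fintype.card V : ℂ)⁻¹ ^ 2 * ∑ v, ∑ w, F v * conj (F w) * sg (l (v + w)) := by
        intro l
        rw [← e1]
        push_cast
        rfl
      simp only [this]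
      rw [← Finset.mul_sum, Finset.sum_comm]
      congr 1
      refine Finset.sum_congr rfl fun v _ => ?_
      rw [Finset.sum_comm]
      refine Finset.sum_congr rfl fun w _ => ?_
      rw [← Finset.mul_sum, sum_dual]
      simp only [add_eq_zero']
    rw [e2]
    simp only [mul_ite, mul_zero, Finset.sum_ite_eq, Finset.mem_univ, if_true]
    rw [Finset.expect_eq_sum_div_card, Finset.card_univ, div_eq_inv_mul, Finset.mul_sum,
      Finset.mul_sum]
    refine Finset.sum_congr rfl fun v _ => ?_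
    rw [Complex.mul_conj, Complex.normSq_eq_norm_sq]
    push_cast
    field_simp
  exact_mod_cast h

lemma ft_zero (F : V → ℂ) : ft F 0 = 𝔼 v, F v := by
  unfold ft
  simp [sg_zero']

omit [Module (ZMod 2) V] in
lemma var_eq (g : V → ℂ) :
    𝔼 h, 𝔼 h', ‖g h - g h'‖ ^ 2 = 2 * ((𝔼 v, ‖g v‖ ^ 2) - ‖𝔼 v, g v‖ ^ 2) := by
  have hN : (Fintype.card V : ℝ) ≠ 0 := by exact_mod_cast Fintype.card_ne_zero
  have e1 : ∀ h h', ‖g h - g h'‖ ^ 2 = ‖g h‖ ^ 2 + ‖g h'‖ ^ 2 - 2 * (g h * conj (g h')).re := by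
    intro h h'
    rw [← Complex.normSq_eq_norm_sq, ← Complex.normSq_eq_norm_sq, ← Complex.normSq_eq_norm_sq,
      Complex.normSq_sub]
  have e2 : ‖𝔼 v, g v‖ ^ 2 = (∑ h, ∑ h', (g h * conj (g h')).re) / (Fintype.card V : ℝ) ^ 2 := by
    rw [Finset.expect_eq_sum_div_card, norm_div, div_pow, Finset.card_univ, Complex.norm_natCast,
      ← Complex.normSq_eq_norm_sq]
    congr 1
    have := Complex.mul_conj (∑ h, g h)
    have h2 : (((∑ h, g h) * conj (∑ h, g h)).re) = Complex.normSq (∑ h, g h) := by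
      rw [this, Complex.ofReal_re]
    rw [← h2, map_sum, Finset.sum_mul_sum, Complex.re_sum]
    refine Finset.sum_congr rfl fun h _ => ?_
    rw [Complex.re_sum]
  rw [e2]
  simp only [e1, Finset.expect_eq_sum_div_card, Finset.card_univ, Finset.sum_sub_distrib,
    Finset.sum_add_distrib, Finset.sum_const, nsmul_eq_mul, ← Finset.mul_sum, ← Finset.sum_div]
  field_simp
  ring

lemma var_ft (g : V → ℂ) :
    𝔼 h, 𝔼 h', ‖g h - g h'‖ ^ 2
      = 2 * ∑ l ∈ Finset.univ.filter (fun l : Module.Dual (ZMod 2) V => l ≠ 0), ‖ft g l‖ ^ 2 := by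
  classical
  rw [var_eq, ← parseval, ← ft_zero, ← Finset.add_sum_erase Finset.univ _ (Finset.mem_univ 0)]
  have : (Finset.univ : Finset (Module.Dual (ZMod 2) V)).erase 0
      = Finset.univ.filter (fun l : Module.Dual (ZMod 2) V => l ≠ 0) := by
    ext l
    simp
  rw [this]
  ring

end

section

variable {G : Type} [AddCommGroup G] [Module (ZMod 2) G] [Fintype G]

lemma expect_comm' {α β : Type*} [Fintype α] [Fintype β] (f : α → β → ℂ) :
    𝔼 a, 𝔼 b, f a b = 𝔼 b, 𝔼 a, f a b := Finset.expect_comm ..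

lemma conv_ft (H : Submodule (ZMod 2) G) [Fintype H] (φ π : G → ℂ)
    (ψ : Module.Dual (ZMod 2) H) :
    ft (fun h : H => 𝔼 y, φ (h + y) * π y) ψ
      = 𝔼 x : G, ft (fun k : H => φ (x + k)) ψ * ft (fun k : H => π (x + k)) ψ := by
  have e1 : ∀ x : G, ft (fun k : H => φ (x + k)) ψ * ft (fun k : H => π (x + k)) ψ
      = 𝔼 k : H, 𝔼 k' : H, φ (x + k) * π (x + k') * sg (ψ (k + k')) := by
    intro x
    unfold ft
    rw [Finset.expect_mul]
    refine Finset.expect_congr rfl fun k _ => ?_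
    rw [Finset.mul_expect]
    refine Finset.expect_congr rfl fun k' _ => ?_
    rw [map_add, sg_add']
    ring
  have e2 : ∀ k k' : H, 𝔼 x : G, φ (x + k) * π (x + k') * sg (ψ (k + k'))
      = (𝔼 y : G, φ (((k + k' : H) : G) + y) * π y) * sg (ψ (k + k')) := by
    intro k k'
    rw [← Finset.expect_mul]
    congr 1
    refine Fintype.expect_equiv (Equiv.addRight (k' : G)) _ _ fun x => ?_
    simp only [Equiv.coe_addRight]
    congr 2
    have : (k' : G) + k' = 0 := (add_eq_zero' _ _).mpr rfl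
    calc x + (k : G) = x + k + (k' + k') := by rw [this, add_zero]
      _ = _ := by push_cast; abel
  calc ft (fun h : H => 𝔼 y, φ (h + y) * π y) ψ
      = 𝔼 k : H, 𝔼 k' : H, (𝔼 y : G, φ (((k + k' : H) : G) + y) * π y) * sg (ψ (k + k')) := by
        have : ∀ k : H, 𝔼 k' : H, (𝔼 y : G, φ (((k + k' : H) : G) + y) * π y) * sg (ψ (k + k'))
            = ft (fun h : H => 𝔼 y, φ (h + y) * π y) ψ := by
          intro k
          unfold ft
          exact Fintype.expect_equiv (Equiv.addLeft k) _ _ fun x => rfl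
        simp only [this]
        rw [Finset.expect_const Finset.univ_nonempty]
    _ = 𝔼 k : H, 𝔼 k' : H, 𝔼 x : G, φ (x + k) * π (x + k') * sg (ψ (k + k')) := by
        simp only [e2]
    _ = 𝔼 k : H, 𝔼 x : G, 𝔼 k' : H, φ (x + k) * π (x + k') * sg (ψ (k + k')) := by
        refine Finset.expect_congr rfl fun k _ => ?_
        exact Finset.expect_comm ..
    _ = 𝔼 x : G, 𝔼 k : H, 𝔼 k' : H, φ (x + k) * π (x + k') * sg (ψ (k + k')) :=
        Finset.expect_comm ..
    _ = _ := by simp only [e1]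

omit [AddCommGroup G] [Module (ZMod 2) G] in
/-- Weighted Cauchy-Schwarz. -/
lemma csw {Ω : Type} [Fintype Ω] (c : Ω → ℂ) (a b : Ω → G → ℂ) :
    ‖∑ w, c w * 𝔼 x, a w x * b w x‖ ^ 2
      ≤ (∑ w, ‖c w‖ * 𝔼 x, ‖a w x‖ ^ 2) * (∑ w, ‖c w‖ * 𝔼 x, ‖b w x‖ ^ 2) := by
  classical
  set N : ℝ := (Fintype.card G : ℝ) with hN
  have h1 : ‖∑ w, c w * 𝔼 x, a w x * b w x‖
      ≤ ∑ p : Ω × G, (Real.sqrt (‖c p.1‖ / N) * ‖a p.1 p.2‖) *
        (Real.sqrt (‖c p.1‖ / N) * ‖b p.1 p.2‖) := by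
    rw [Fintype.sum_prod_type]
    refine (norm_sum_le _ _).trans (Finset.sum_le_sum fun w _ => ?_)
    rw [norm_mul]
    have h2 : ‖𝔼 x, a w x * b w x‖ ≤ 𝔼 x, ‖a w x‖ * ‖b w x‖ := by
      refine (RCLike.norm_expect_le (K := ℝ)).trans (le_of_eq ?_)
      refine Finset.expect_congr rfl fun x _ => norm_mul _ _
    refine (mul_le_mul_of_nonneg_left h2 (norm_nonneg _)).trans (le_of_eq ?_)
    rw [Finset.expect_eq_sum_div_card, Finset.card_univ, ← hN, div_eq_inv_mul, ← mul_assoc,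
      Finset.mul_sum]
    refine Finset.sum_congr rfl fun x _ => ?_
    have hs : Real.sqrt (‖c w‖ / N) * Real.sqrt (‖c w‖ / N) = ‖c w‖ / N :=
      Real.mul_self_sqrt (by positivity)
    calc ‖c w‖ * N⁻¹ * (‖a w x‖ * ‖b w x‖) = (‖c w‖ / N) * (‖a w x‖ * ‖b w x‖) := by
          rw [div_eq_mul_inv]
      _ = (Real.sqrt (‖c w‖ / N) * Real.sqrt (‖c w‖ / N)) * (‖a w x‖ * ‖b w x‖) := by rw [hs]
      _ = _ := by ring
  have h3 : ∀ d : Ω → G → ℂ, ∑ p : Ω × G, (Real.sqrt (‖c p.1‖ / N) * ‖d p.1 p.2‖) ^ 2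
      = ∑ w, ‖c w‖ * 𝔼 x, ‖d w x‖ ^ 2 := by
    intro d
    rw [Fintype.sum_prod_type]
    refine Finset.sum_congr rfl fun w _ => ?_
    rw [Finset.expect_eq_sum_div_card, Finset.card_univ, ← hN, div_eq_inv_mul, ← mul_assoc,
      Finset.mul_sum]
    refine Finset.sum_congr rfl fun x _ => ?_
    rw [mul_pow, Real.sq_sqrt (by positivity), div_eq_mul_inv]
  calc _ ≤ (∑ p : Ω × G, (Real.sqrt (‖c p.1‖ / N) * ‖a p.1 p.2‖) *
        (Real.sqrt (‖c p.1‖ / N) * ‖b p.1 p.2‖)) ^ 2 := by gcongr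
    _ ≤ _ := Finset.sum_mul_sq_le_sq_mul_sq _ _ _
    _ = _ := by rw [h3, h3]

omit [AddCommGroup G] [Module (ZMod 2) G] in
lemma exp_le_one (F : G → ℝ) (hF : ∀ x, F x ≤ 1) : 𝔼 x, F x ≤ 1 := by
  rcases isEmpty_or_nonempty G with h | h
  · simp
  · exact Finset.expect_le Finset.univ_nonempty fun x _ => hF x

theorem res_aux (H : Submodule (ZMod 2) G) [Fintype H] (Ω : Type) [Fintype Ω] (c : Ω → ℂ)
    (φ π : Ω → G → ℂ) (κ C : ℝ) (hπ : ∀ w x, ‖π w x‖ ≤ 1) (hc : (∑ w, ‖c w‖) ≤ C) (hκ : 0 ≤ κ)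
    (hF : ∀ ψ : Module.Dual (ZMod 2) H, ψ ≠ 0 →
      ∑ w, ‖c w‖ * 𝔼 x : G, ‖ft (fun k : H => φ w (x + k)) ψ‖ ^ 2 ≤ κ) :
    𝔼 h : H, 𝔼 h' : H, ‖(∑ w, c w * 𝔼 y, φ w (h + y) * π w y) -
      (∑ w, c w * 𝔼 y, φ w (h' + y) * π w y)‖ ^ 2 ≤ 2 * κ * C := by
  classical
  rw [var_ft (fun h : H => ∑ w, c w * 𝔼 y, φ w (h + y) * π w y)]
  have e1 : ∀ ψ : Module.Dual (ZMod 2) H,
      ft (fun h : H => ∑ w, c w * 𝔼 y, φ w (h + y) * π w y) ψ
      = ∑ w, c w * 𝔼 x : G, ft (fun k : H => φ w (x + k)) ψ * ft (fun k : H => π w (x + k)) ψ := by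
    intro ψ
    simp only [← conv_ft]
    unfold ft
    simp only [Finset.expect_eq_sum_div_card, Finset.sum_mul, Finset.mul_sum, Finset.sum_div]
    rw [Finset.sum_comm]
    refine Finset.sum_congr rfl fun w _ => Finset.sum_congr rfl fun h _ => ?_
    refine Finset.sum_congr rfl fun y _ => ?_
    ring
  have e2 : ∀ ψ : Module.Dual (ZMod 2) H, ψ ≠ 0 →
      ‖ft (fun h : H => ∑ w, c w * 𝔼 y, φ w (h + y) * π w y) ψ‖ ^ 2
      ≤ κ * ∑ w, ‖c w‖ * 𝔼 x : G, ‖ft (fun k : H => π w (x + k)) ψ‖ ^ 2 := by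
    intro ψ hψ
    rw [e1]
    refine (csw c (fun w x => ft (fun k : H => φ w (x + k)) ψ)
      (fun w x => ft (fun k : H => π w (x + k)) ψ)).trans ?_
    refine mul_le_mul_of_nonneg_right (hF ψ hψ) (Finset.sum_nonneg fun w _ => ?_)
    exact mul_nonneg (norm_nonneg _) (Finset.expect_nonneg fun x _ => by positivity)
  have e3 : ∑ ψ : Module.Dual (ZMod 2) H,
      ∑ w, ‖c w‖ * 𝔼 x : G, ‖ft (fun k : H => π w (x + k)) ψ‖ ^ 2 ≤ C := by
    rw [Finset.sum_comm]
    refine le_trans (Finset.sum_le_sum fun w _ => ?_) hc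
    rw [← Finset.mul_sum]
    have e4 : ∑ ψ : Module.Dual (ZMod 2) H, 𝔼 x : G, ‖ft (fun k : H => π w (x + k)) ψ‖ ^ 2
        = 𝔼 x : G, 𝔼 k : H, ‖π w (x + k)‖ ^ 2 := by
      have : ∀ x : G, 𝔼 k : H, ‖π w (x + k)‖ ^ 2
          = ∑ ψ : Module.Dual (ZMod 2) H, ‖ft (fun k : H => π w (x + k)) ψ‖ ^ 2 := by
        intro x
        rw [parseval]
      simp only [this, Finset.expect_eq_sum_div_card, ← Finset.sum_div]
      rw [Finset.sum_comm]
    rw [e4]
    refine mul_le_of_le_one_right (norm_nonneg _) (exp_le_one _ fun x => exp_le_one _ fun k => ?_)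
    exact pow_le_one₀ (norm_nonneg _) (hπ _ _)
  have e5 : ∑ l ∈ Finset.univ.filter (fun l : Module.Dual (ZMod 2) H => l ≠ 0),
      ‖ft (fun h : H => ∑ w, c w * 𝔼 y, φ w (h + y) * π w y) l‖ ^ 2 ≤ κ * C := by
    refine (Finset.sum_le_sum fun ψ hψ => e2 ψ (Finset.mem_filter.mp hψ).2).trans ?_
    rw [← Finset.mul_sum]
    refine mul_le_mul_of_nonneg_left ?_ hκ
    refine le_trans (Finset.sum_le_sum_of_subset_of_nonneg (Finset.filter_subset _ _) ?_) e3
    intro ψ _ _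
    refine Finset.sum_nonneg fun w _ => ?_
    exact mul_nonneg (norm_nonneg _) (Finset.expect_nonneg fun x _ => by positivity)
  linarith

lemma exp_hs {E : Type*} [AddCommMonoid E] [Module ℚ≥0 E] (H : Submodule (ZMod 2) G) [Fintype H]
    (f : G → E) : 𝔼 h ∈ hs H, f h = 𝔼 h : H, f h := by
  classical
  unfold Finset.expect
  have hc : (hs H).card = Fintype.card H := by
    rw [← Fintype.card_coe]
    refine Fintype.card_congr (Equiv.subtypeEquivRight fun x => ?_)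
    simp [hs]
  rw [hc, Finset.card_univ]
  congr 1
  refine Finset.sum_subtype _ (fun x => ?_) f
  simp [hs]

end

theorem res : T_RES := by
  intro G _ _ _ _ H Ω _ c φ π κ C hφ hπ hc hF hκ
  classical
  let _ : Fintype H := Fintype.ofFinite H
  have h := res_aux H Ω c φ π κ C hπ hc hκ (by
    intro ψ hψ
    obtain ⟨l, hl⟩ := LinearMap.exists_extend ψ
    have hl' : ∀ h : H, l h = ψ h := fun h => by
      rw [← hl]
      rfl
    have hne : ∃ h ∈ H, l h ≠ 0 := by
      by_contra hcon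
      push Not at hcon
      apply hψ
      ext h
      rw [← hl', hcon h h.2]
      rfl
    refine le_trans (le_of_eq ?_) (hF l hne)
    refine Finset.sum_congr rfl fun w _ => ?_
    unfold Fc ft
    congr 1
    refine Finset.expect_congr rfl fun x _ => ?_
    rw [exp_hs]
    simp only [hl'])
  rw [exp_hs]
  simp only [exp_hs]
  exact h

end Pool.Agent.H19.SQ
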