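import Pool.Agent.H81.SQ.Targets
import Pool.Agent.H19.SQP.TriB

/-!
# Modules SPLIT and COB4
-/

namespace Pool.Agent.H19.SQ

open Pool.Agent.H81.SQ Pool.Agent.H19.SQP

theorem split : T_SPLIT := by
  intro G _ _ _ b hb
  obtain ⟨m, hm⟩ := alt_eq b hb
  exact ⟨m, fun x y => (hm x y).symm⟩

lemma exists_toCircle (w : Circle) (hw : w ^ 4 = 1) : ∃ q : ZMod 4, ZMod.toCircle q = w := by
  have hmem : toUnits w ∈ rootsOfUnity 4 Circle := by
    rw [mem_rootsOfUnity, ← map_pow, hw, map_one]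
  obtain ⟨q, hq⟩ := (bijective_rootsOfUnityAddChar 4).2 ⟨toUnits w, hmem⟩
  refine ⟨q, ?_⟩
  have h := congrArg (fun x : rootsOfUnity 4 Circle => ((x : Circleˣ) : Circle)) hq
  exact h

theorem cob4 : T_COB4 := by
  intro G _ _ _ σ hσ
  obtain ⟨w, hw, hw4⟩ := sym_form (fun x y => σ x y) hσ (fun x y z => by
    rw [map_add, LinearMap.add_apply])
  choose q hq using fun y => exists_toCircle (w y) (hw4 y)
  refine ⟨q, fun x y => ?_⟩
  have h := hw x y
  rw [← hq, ← hq, ← hq, ← AddChar.map_add_eq_mul, ← AddChar.map_neg_eq_inv,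
    ← AddChar.map_add_eq_mul] at h
  unfold sgnC at h
  have h2 := ZMod.injective_toCircle h
  have h3 : ∀ a : ZMod 2, dbl a = 2 * ((a.val : ℕ) : ZMod 4) := by decide
  have h4 : ∀ a : ZMod 2, dbl a = - dbl a := by decide
  rw [← h3, h4, h2]
  abel

end Pool.Agent.H19.SQ
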