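import Pool.Agent.H47.SQ.Targets3
import Pool.Agent.H45.SQP.EXU

/-!
# Search on random k-CNFs (MP_c62aed_lc), row XEU: the bad solutions of the uniform formulas
-/

set_option autoImplicit false

namespace Pool.Agent.H19.SQ.XEU

open Finset Pool.Agent.H97.RK Pool.Agent.H41.SS Pool.Agent.H47.SR Pool.Agent.H45.SQP
open Pool.Agent.H47.PL (Sat Os)

open Classical in
private theorem badB_le {n k m : ℕ} (F : Fml n k m) (t t₁ d u u₁ : ℕ) :
    (badB F t t₁ d u u₁ : ℝ) ≤ ∑ τ : Fin n → Bool,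
      ((∑ z ∈ univ.filter fun z : Fin n → Bool => Zb t t₁ u u₁ τ z,
        if Sat F τ ∧ ¬ GdB F t t₁ d u u₁ z then (1 : ℝ) else 0) +
      ∑ x ∈ univ.filter fun x : Fin n → Bool => dst x τ ≤ 1,
        if Sat F τ ∧ ¬ GdE F t t₁ u₁ x then (1 : ℝ) else 0) := by
  unfold badB
  rw [card_filter]
  push_cast
  refine Finset.sum_le_sum fun τ _ => ?_
  have hnn : ∀ z ∈ univ.filter fun z : Fin n → Bool => Zb t t₁ u u₁ τ z,
      (0 : ℝ) ≤ if Sat F τ ∧ ¬ GdB F t t₁ d u u₁ z then (1 : ℝ) else 0 := by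
    intro z _
    split_ifs <;> norm_num
  have hnn' : ∀ x ∈ univ.filter fun x : Fin n → Bool => dst x τ ≤ 1,
      (0 : ℝ) ≤ if Sat F τ ∧ ¬ GdE F t t₁ u₁ x then (1 : ℝ) else 0 := by
    intro z _
    split_ifs <;> norm_num
  split_ifs with h
  · obtain ⟨h1, h2⟩ := h
    unfold BG at h2
    rw [not_and_or] at h2
    push Not at h2
    rcases h2 with ⟨z, hz1, hz2⟩ | ⟨x, hx1, hx2⟩
    · have h3 := Finset.single_le_sum hnn (mem_filter.2 ⟨mem_univ z, hz1⟩)
      rw [if_pos ⟨h1, hz2⟩] at h3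
      have h4 := Finset.sum_nonneg hnn'
      linarith
    · have h3 := Finset.single_le_sum hnn' (mem_filter.2 ⟨mem_univ x, hx1⟩)
      rw [if_pos ⟨h1, hx2⟩] at h3
      have h4 := Finset.sum_nonneg hnn
      linarith
  · exact add_nonneg (Finset.sum_nonneg hnn) (Finset.sum_nonneg hnn')

private theorem bl_one (n : ℕ) : bl n 1 = n + 1 := by
  unfold bl
  rw [Finset.sum_range_succ, Finset.sum_range_one, Nat.choose_zero_right, Nat.choose_one_right]
  ring

open Classical in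
theorem pf_XEU (hXPB : T_XPB) (hXPE : T_XPE) (hXZB : T_XZB)
    (hOSC : Pool.Agent.H47.PL.T_OSC) : T_XEU := by
  intro n k m t t₁ d u u₁ hk hkn hdn hun
  have hq : ∀ τ : Fin n → Bool, (Os n k τ).card = (2 ^ k - 1) * n.descFactorial k :=
    fun τ => (hOSC n k τ τ).1
  have hOm : ∀ τ : Fin n → Bool, Os n k τ ⊆ Om n k := fun τ => filter_subset _ _
  have h2k : 2 ^ k ≤ 2 * (2 ^ k - 1) := by
    have h1 : 2 ^ 1 ≤ 2 ^ k := Nat.pow_le_pow_right (by norm_num) hk
    omega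
  have hOm2 : ∀ τ : Fin n → Bool, (Om n k).card ≤ 2 * (Os n k τ).card := by
    intro τ
    rw [hq, card_Om, ← mul_assoc]
    exact Nat.mul_le_mul_right _ h2k
  obtain ⟨Q, hQ⟩ : ∃ Q : ℝ, Q = (((2 ^ k - 1) * n.descFactorial k : ℕ) : ℝ) := ⟨_, rfl⟩
  obtain ⟨P, hP⟩ : ∃ P : ℝ, P = prB n k m t t₁ d u u₁ := ⟨_, rfl⟩
  obtain ⟨P', hP'⟩ : ∃ P' : ℝ, P' = prE n k m t t₁ u₁ := ⟨_, rfl⟩
  have hterm : ∀ (τ z : Fin n → Bool),
      (∑ F ∈ univ.filter fun F : Fml n k m => Dist F,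
        if Sat F τ ∧ ¬ GdB F t t₁ d u u₁ z then (1 : ℝ) else 0) ≤ P * Q ^ m := by
    intro τ z
    have h1 := hXPB n k m t t₁ d u u₁ (Os n k τ) (by omega) hkn hdn (hOm τ) (hOm2 τ) z
    rw [hq, ← hQ, ← hP] at h1
    refine le_trans (le_of_eq ?_) h1
    rw [← Finset.sum_filter, Finset.sum_const, nsmul_eq_mul, mul_one, filter_filter]
    congr 2
    ext F
    simp only [mem_filter, mem_univ, true_and]
    rw [← dist_sat_iff]
    tauto
  have hterm' : ∀ (τ z : Fin n → Bool),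
      (∑ F ∈ univ.filter fun F : Fml n k m => Dist F,
        if Sat F τ ∧ ¬ GdE F t t₁ u₁ z then (1 : ℝ) else 0) ≤ P' * Q ^ m := by
    intro τ z
    have h1 := hXPE n k m t t₁ u₁ (Os n k τ) (by omega) hkn hun (hOm τ) (hOm2 τ) z
    rw [hq, ← hQ, ← hP'] at h1
    refine le_trans (le_of_eq ?_) h1
    rw [← Finset.sum_filter, Finset.sum_const, nsmul_eq_mul, mul_one, filter_filter]
    congr 2
    ext F
    simp only [mem_filter, mem_univ, true_and]
    rw [← dist_sat_iff]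
    tauto
  have hPQ : 0 ≤ P * Q ^ m := by
    refine le_trans ?_ (hterm (fun _ => true) fun _ => true)
    refine Finset.sum_nonneg fun F _ => ?_
    split_ifs <;> norm_num
  have hPQ' : 0 ≤ P' * Q ^ m := by
    refine le_trans ?_ (hterm' (fun _ => true) fun _ => true)
    refine Finset.sum_nonneg fun F _ => ?_
    split_ifs <;> norm_num
  obtain ⟨NZ, hNZ⟩ : ∃ NZ : ℝ, NZ = 2 ^ u * bl u₁ (4 * t + 1) * bl n (2 * t₁ + 1) := ⟨_, rfl⟩
  have hcz : ∀ τ : Fin n → Bool,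
      ((univ.filter fun z : Fin n → Bool => Zb t t₁ u u₁ τ z).card : ℝ) ≤ NZ := by
    intro τ
    have h1 := hXZB n t t₁ u u₁ τ
    rw [Nat.card_eq_fintype_card, Fintype.card_subtype] at h1
    rw [hNZ]
    exact_mod_cast h1
  have hcx : ∀ τ : Fin n → Bool,
      ((univ.filter fun x : Fin n → Bool => dst x τ ≤ 1).card : ℝ) ≤ (n : ℝ) + 1 := by
    intro τ
    have h1 := card_dst n 1 τ
    rw [bl_one] at h1
    exact_mod_cast h1
  calc (∑ F ∈ univ.filter fun F : Fml n k m => Dist F, (badB F t t₁ d u u₁ : ℝ))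
      ≤ ∑ F ∈ univ.filter fun F : Fml n k m => Dist F, ∑ τ : Fin n → Bool,
        ((∑ z ∈ univ.filter fun z : Fin n → Bool => Zb t t₁ u u₁ τ z,
          if Sat F τ ∧ ¬ GdB F t t₁ d u u₁ z then (1 : ℝ) else 0) +
        ∑ x ∈ univ.filter fun x : Fin n → Bool => dst x τ ≤ 1,
          if Sat F τ ∧ ¬ GdE F t t₁ u₁ x then (1 : ℝ) else 0) :=
        Finset.sum_le_sum fun F _ => badB_le F t t₁ d u u₁
    _ = ∑ τ : Fin n → Bool,
        ((∑ z ∈ univ.filter fun z : Fin n → Bool => Zb t t₁ u u₁ τ z,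
          ∑ F ∈ univ.filter fun F : Fml n k m => Dist F,
          if Sat F τ ∧ ¬ GdB F t t₁ d u u₁ z then (1 : ℝ) else 0) +
        ∑ x ∈ univ.filter fun x : Fin n → Bool => dst x τ ≤ 1,
          ∑ F ∈ univ.filter fun F : Fml n k m => Dist F,
          if Sat F τ ∧ ¬ GdE F t t₁ u₁ x then (1 : ℝ) else 0) := by
        rw [Finset.sum_comm]
        refine Finset.sum_congr rfl fun τ _ => ?_
        rw [Finset.sum_add_distrib, Finset.sum_comm]
        congr 1
        rw [Finset.sum_comm]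
    _ ≤ ∑ τ : Fin n → Bool,
        ((∑ z ∈ univ.filter fun z : Fin n → Bool => Zb t t₁ u u₁ τ z, P * Q ^ m) +
        ∑ x ∈ univ.filter fun x : Fin n → Bool => dst x τ ≤ 1, P' * Q ^ m) :=
        Finset.sum_le_sum fun τ _ => add_le_add (Finset.sum_le_sum fun z _ => hterm τ z)
          (Finset.sum_le_sum fun x _ => hterm' τ x)
    _ ≤ ∑ _τ : Fin n → Bool, (NZ * (P * Q ^ m) + ((n : ℝ) + 1) * (P' * Q ^ m)) := by
        refine Finset.sum_le_sum fun τ _ => add_le_add ?_ ?_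
        · rw [Finset.sum_const, nsmul_eq_mul]
          exact mul_le_mul_of_nonneg_right (hcz τ) hPQ
        · rw [Finset.sum_const, nsmul_eq_mul]
          exact mul_le_mul_of_nonneg_right (hcx τ) hPQ'
    _ = 2 ^ n * (NZ * (P * Q ^ m) + ((n : ℝ) + 1) * (P' * Q ^ m)) := by
        rw [Finset.sum_const, card_univ, Fintype.card_fun, Fintype.card_bool, Fintype.card_fin,
          nsmul_eq_mul]
        push_cast
        rfl
    _ = pT n k m t t₁ d u u₁ *
        (univ.filter fun p : Fml n k m × (Fin n → Bool) => Dist p.1 ∧ Sat p.1 p.2).card := by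
        rw [card_pairs n k m hOSC, ← hQ]
        unfold pT
        rw [← hP, ← hP', ← hNZ]
        ring

end Pool.Agent.H19.SQ.XEU
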