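import Pool.Agent.H47.SQ.Targets3

/-!
# Search on random k-CNFs (MP_c62aed_lc), row XNL: numbers for the exact constant
-/

set_option autoImplicit false

namespace Pool.Agent.H19.SQ.XNL

open Finset Pool.Agent.H97.RK Pool.Agent.H41.SS Pool.Agent.H47.SR
open Pool.Agent.H47.SQ (Derivation Refuted Find success sav guess AlmostAll)

/-- falling factorials -/
private theorem desc_lower (n h k : ℕ) (y : ℝ) (hk : h + k ≤ n) (hy0 : 0 ≤ y) (hy1 : y ≤ 1)
    (hy : (h : ℝ) ≤ y * (n - k)) : ∀ j, j ≤ k →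
    (1 - y) ^ j * (n.descFactorial j : ℝ) ≤ ((n - h).descFactorial j : ℝ) := by
  intro j
  induction j with
  | zero => intro _; simp
  | succ j ih =>
    intro hj
    have h1 := ih (by omega)
    rw [Nat.descFactorial_succ, Nat.descFactorial_succ]
    push_cast
    have e1 : ((n - j : ℕ) : ℝ) = n - j := by
      rw [Nat.cast_sub (by omega)]
    have e2 : ((n - h - j : ℕ) : ℝ) = n - h - j := by
      rw [Nat.cast_sub (by omega), Nat.cast_sub (by omega)]
    rw [e1, e2]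
    have hjk : (j : ℝ) ≤ k := by exact_mod_cast (by omega : j ≤ k)
    have hnj : (0 : ℝ) ≤ n - j := by
      have : (j : ℝ) ≤ n := by exact_mod_cast (by omega : j ≤ n)
      linarith
    have h2 : (1 - y) * (n - j) ≤ (n : ℝ) - h - j := by
      have : y * (n - k) ≤ y * ((n : ℝ) - j) := mul_le_mul_of_nonneg_left (by linarith) hy0
      nlinarith
    have h3 : (0 : ℝ) ≤ (1 - y) * (n - j) := mul_nonneg (by linarith) hnj
    calc (1 - y) ^ (j + 1) * (((n : ℝ) - j) * (n.descFactorial j : ℝ))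
        = ((1 - y) * (n - j)) * ((1 - y) ^ j * (n.descFactorial j : ℝ)) := by ring
      _ ≤ ((n : ℝ) - h - j) * ((n - h).descFactorial j : ℝ) :=
          mul_le_mul h2 h1 (by
            have : (0 : ℝ) ≤ (1 - y) ^ j := pow_nonneg (by linarith) j
            positivity) (h3.trans h2)

private theorem exp_le_one_sub {y : ℝ} (hy : y < 1) : Real.exp (-(y / (1 - y))) ≤ 1 - y := by
  have h1 : 0 < 1 - y := by linarith
  have h2 := Real.one_sub_inv_le_log_of_pos h1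
  have h3 : -(y / (1 - y)) = 1 - (1 - y)⁻¹ := by
    field_simp
    ring
  rw [h3]
  calc Real.exp (1 - (1 - y)⁻¹) ≤ Real.exp (Real.log (1 - y)) := Real.exp_le_exp.2 h2
    _ = 1 - y := Real.exp_log h1

private theorem log_le_two_sqrt {z : ℝ} (hz : 0 < z) : Real.log z ≤ 2 * Real.sqrt z := by
  have h1 := Real.log_le_sub_one_of_pos (Real.sqrt_pos.2 hz)
  rw [Real.log_sqrt hz.le] at h1
  linarith

/-- the square root of a large number is small -/
private theorem sqrt_small {ε z : ℝ} (hε : 0 < ε) (hz : 2 ^ 20 / ε ^ 2 ≤ z) :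
    Real.sqrt z ≤ ε * z / 1024 := by
  have hz0 : 0 < z := lt_of_lt_of_le (by positivity) hz
  have h1 : 1024 / ε ≤ Real.sqrt z := by
    refine Real.le_sqrt_of_sq_le (le_trans (le_of_eq ?_) hz)
    field_simp
    norm_num
  have h2 : Real.sqrt z * Real.sqrt z = z := Real.mul_self_sqrt hz0.le
  have h3 : 1024 / ε * Real.sqrt z ≤ Real.sqrt z * Real.sqrt z :=
    mul_le_mul_of_nonneg_right h1 (Real.sqrt_nonneg _)
  rw [h2, div_mul_eq_mul_div, div_le_iff₀ hε] at h3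
  linarith

/-- the numbers `L`, `Z` -/
private theorem basics {ε : ℝ} (hε : 0 < ε) (hε1 : ε ≤ 1) {k n Δ : ℝ}
    (hk : 2 ^ 20 / ε ^ 2 ≤ k) (hn : 2 ^ 20 / ε ^ 2 ≤ n / k) (hΔ0 : 0 ≤ Δ)
    (hΔ2 : Δ ≤ (2 : ℝ) ^ (ε / 128 * k)) :
    13 ≤ Real.log (k * (1 + Δ)) ∧ Real.log k ≤ Real.log (k * (1 + Δ)) ∧
    Real.log (k * (1 + Δ)) ≤ ε / 64 * k ∧
    Real.log n + 8 * Real.log 2 ≤ ε / 100 * (Real.log (k * (1 + Δ)) * (n / k)) ∧
    n / k ≤ Real.log (k * (1 + Δ)) * (n / k) := by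
  have hlog2 := Real.log_two_gt_d9
  have hlog2' := Real.log_two_lt_d9
  have hbig : (2 : ℝ) ^ 20 ≤ 2 ^ 20 / ε ^ 2 := by
    rw [le_div_iff₀ (by positivity)]
    have : ε ^ 2 ≤ 1 := pow_le_one₀ hε.le hε1
    linarith
  have hk0 : 0 < k := by linarith
  have hx0 : 0 < n / k := by linarith
  have hn0 : 0 < n := by
    have := mul_pos hx0 hk0
    rwa [div_mul_cancel₀ _ hk0.ne'] at this
  obtain ⟨L, hL⟩ : ∃ L : ℝ, L = Real.log (k * (1 + Δ)) := ⟨_, rfl⟩
  rw [← hL]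
  have hlogk : 13 ≤ Real.log k := by
    have h1 : Real.log ((2 : ℝ) ^ 20) ≤ Real.log k := Real.log_le_log (by norm_num) (by linarith)
    rw [Real.log_pow] at h1
    push_cast at h1
    linarith
  have hLk : Real.log k ≤ L := by
    rw [hL]
    exact Real.log_le_log hk0 (le_mul_of_one_le_right hk0.le (by linarith))
  have hL13 : 13 ≤ L := hlogk.trans hLk
  have hP1 : (1 : ℝ) ≤ (2 : ℝ) ^ (ε / 128 * k) := Real.one_le_rpow (by norm_num) (by positivity)
  have hsk := sqrt_small hε hk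
  have hLup : L ≤ ε / 64 * k := by
    have h1 : k * (1 + Δ) ≤ (2 * k) * (2 : ℝ) ^ (ε / 128 * k) := by
      calc k * (1 + Δ) ≤ k * ((2 : ℝ) ^ (ε / 128 * k) + (2 : ℝ) ^ (ε / 128 * k)) :=
            mul_le_mul_of_nonneg_left (by linarith) hk0.le
        _ = _ := by ring
    have h2 := Real.log_le_log (by positivity) h1
    rw [← hL, Real.log_mul (by positivity) (by positivity), Real.log_rpow (by norm_num),
      Real.log_mul (by norm_num) hk0.ne'] at h2
    have h3 := log_le_two_sqrt hk0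
    have h4 : ε / 128 * k * Real.log 2 ≤ ε / 128 * k * (7 / 10) :=
      mul_le_mul_of_nonneg_left (by linarith) (by positivity)
    have h5 : 1 ≤ ε * k / 1024 := by
      have h6 : 1024 * (ε * 1) ≤ ε * k := by
        have : (1024 : ℝ) ≤ k := by linarith
        nlinarith
      have h7 : (2 : ℝ) ^ 20 ≤ ε * k := by
        have h8 : 2 ^ 20 / ε ^ 2 * ε ≤ k * ε := mul_le_mul_of_nonneg_right hk hε.le
        have h9 : (2 : ℝ) ^ 20 / ε ^ 2 * ε = 2 ^ 20 / ε := by
          field_simp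
        rw [h9] at h8
        have h10 : (2 : ℝ) ^ 20 ≤ 2 ^ 20 / ε := by
          rw [le_div_iff₀ hε]
          linarith
        linarith
      linarith
    linarith
  have hsx := sqrt_small hε hn
  have hxZ : n / k ≤ L * (n / k) := le_mul_of_one_le_left hx0.le (by linarith)
  refine ⟨hL13, hLk, hLup, ?_, hxZ⟩
  have h1 : Real.log n = Real.log k + Real.log (n / k) := by
    rw [Real.log_div hn0.ne' hk0.ne']
    ring
  have h2 := log_le_two_sqrt hx0
  -- L ≤ ε Z / 2 ^ 20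
  have h3 : L ≤ ε / 1000 * (L * (n / k)) := by
    have h4 : 1 ≤ ε / 1000 * (n / k) := by
      have h8 : 2 ^ 20 / ε ^ 2 * ε ≤ n / k * ε := mul_le_mul_of_nonneg_right hn hε.le
      have h9 : (2 : ℝ) ^ 20 / ε ^ 2 * ε = 2 ^ 20 / ε := by
        field_simp
      rw [h9] at h8
      have h10 : (2 : ℝ) ^ 20 ≤ 2 ^ 20 / ε := by
        rw [le_div_iff₀ hε]
        linarith
      linarith
    calc L = L * 1 := (mul_one _).symm
      _ ≤ L * (ε / 1000 * (n / k)) := mul_le_mul_of_nonneg_left h4 (by linarith)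
      _ = _ := by ring
  have h5 : ε * (n / k) ≤ ε * (L * (n / k)) := mul_le_mul_of_nonneg_left hxZ hε.le
  have h6 : 8 * Real.log 2 ≤ L := by linarith
  have h7 : 0 ≤ ε * (L * (n / k)) := by positivity
  linarith

private theorem two_pow_exp (z : ℝ) : (2 : ℝ) ^ z = Real.exp (Real.log 2 * z) :=
  Real.rpow_def_of_pos (by norm_num) z

/-- the numbers `h` and `u` -/
private theorem hu_facts {ε Z : ℝ} (hε : 0 < ε) (hε1 : ε ≤ 1) (hεZ : 2 ^ 20 ≤ ε * Z) :
    ∃ h u : ℕ, (h : ℝ) ≤ (1 - ε / 4) * Z ∧ ε / 4 * Z ≤ u ∧ u ≤ h ∧ (h : ℝ) ≤ Z ∧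
      Z - (ε * Z) / 2 - 2 ≤ (h : ℝ) - u := by
  have hZ0 : 0 < Z := by
    have h1 : 0 < ε * Z := by linarith
    exact (pos_iff_pos_of_mul_pos h1).1 hε
  have hεZ1 : ε * Z ≤ Z := by
    have := mul_le_mul_of_nonneg_right hε1 hZ0.le
    linarith
  obtain ⟨h, hh⟩ : ∃ h : ℕ, h = ⌊(1 - ε / 4) * Z⌋₊ := ⟨_, rfl⟩
  have hh0 : 0 ≤ (1 - ε / 4) * Z := mul_nonneg (by linarith) hZ0.le
  have hh1 : (h : ℝ) ≤ (1 - ε / 4) * Z := by
    rw [hh]
    exact Nat.floor_le hh0
  have hh2 : (1 - ε / 4) * Z < h + 1 := by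
    rw [hh]
    exact Nat.lt_floor_add_one _
  obtain ⟨u, hu⟩ : ∃ u : ℕ, u = ⌈ε / 4 * Z⌉₊ := ⟨_, rfl⟩
  have hu1 : ε / 4 * Z ≤ u := by
    rw [hu]
    exact Nat.le_ceil _
  have hu2 : (u : ℝ) < ε / 4 * Z + 1 := by
    rw [hu]
    exact Nat.ceil_lt_add_one (by positivity)
  have e0 : (1 - ε / 4) * Z = Z - (ε * Z) / 4 := by ring
  have e1 : ε / 4 * Z = (ε * Z) / 4 := by ring
  rw [e1] at hu2
  rw [e0] at hh2
  have huh : (u : ℝ) ≤ h := by linarith
  refine ⟨h, u, hh1, hu1, by exact_mod_cast huh, ?_, by linarith⟩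
  rw [e0] at hh1
  linarith

private theorem first_part {ε Z n : ℝ} {h u : ℕ} (hε : 0 < ε) (hZ0 : 0 < Z) (hn0 : 0 < n)
    (huh : u ≤ h) (hεZ : 2 ^ 20 ≤ ε * Z)
    (hlogn : Real.log n + 8 * Real.log 2 ≤ ε / 100 * Z)
    (hhu : Z - (ε * Z) / 2 - 2 ≤ (h : ℝ) - u) :
    8 * n * (2 : ℝ) ^ ((1 - ε) * Z) ≤ 2 ^ (h - u) := by
  have hlog2 := Real.log_two_gt_d9
  have hlog2' := Real.log_two_lt_d9
  have h9 : n = Real.exp (Real.log n) := (Real.exp_log hn0).symm
  have h2 : ((h - u : ℕ) : ℝ) = h - u := by rw [Nat.cast_sub huh]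
  rw [← Real.rpow_natCast, h2, two_pow_exp, two_pow_exp]
  have h8 : (8 : ℝ) = Real.exp (3 * Real.log 2) := by
    rw [show 3 * Real.log 2 = ((3 : ℕ) : ℝ) * Real.log 2 by push_cast; ring,
      Real.exp_nat_mul, Real.exp_log (by norm_num)]
    norm_num
  calc 8 * n * Real.exp (Real.log 2 * ((1 - ε) * Z))
      = Real.exp (3 * Real.log 2) * Real.exp (Real.log n) *
        Real.exp (Real.log 2 * ((1 - ε) * Z)) := by rw [← h8, ← h9]
    _ = Real.exp (3 * Real.log 2 + Real.log n + Real.log 2 * ((1 - ε) * Z)) := by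
        rw [Real.exp_add, Real.exp_add]
    _ ≤ _ := by
        apply Real.exp_le_exp.2
        have h11 : Real.log 2 * (Z - (ε * Z) / 2 - 2) ≤ Real.log 2 * ((h : ℝ) - u) :=
          mul_le_mul_of_nonneg_left hhu (by linarith)
        have h12 : (69 / 100) * ((ε * Z) / 2) ≤ Real.log 2 * ((ε * Z) / 2) :=
          mul_le_mul_of_nonneg_right (by linarith) (by positivity)
        have h13 : ε / 100 * Z = (ε * Z) / 100 := by ring
        rw [h13] at hlogn
        have h14 : Real.log 2 * ((1 - ε) * Z) = Real.log 2 * Z - Real.log 2 * (ε * Z) := by ring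
        have h15 : Real.log 2 * (Z - (ε * Z) / 2 - 2) =
            Real.log 2 * Z - Real.log 2 * ((ε * Z) / 2) - 2 * Real.log 2 := by ring
        have h16 : Real.log 2 * (ε * Z) = 2 * (Real.log 2 * ((ε * Z) / 2)) := by ring
        linarith

private theorem rho {ε y L : ℝ} {k : ℕ} (hε : 0 < ε) (hε1 : ε ≤ 1) (hL : 0 ≤ L)
    (hyk : y * k ≤ (1 - 249 / 1000 * ε) * L) (hyε : y ≤ ε / 32) :
    Real.exp (-((1 - ε / 8) * L)) ≤ (1 - y) ^ k := by
  have hy1 : 0 < 1 - y := by linarith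
  calc Real.exp (-((1 - ε / 8) * L)) ≤ Real.exp (-(y / (1 - y))) ^ k := by
        rw [← Real.exp_nat_mul]
        apply Real.exp_le_exp.2
        have h1 : (k : ℝ) * -(y / (1 - y)) = -((y * k) / (1 - y)) := by ring
        rw [h1, neg_le_neg_iff, div_le_iff₀ hy1]
        have h2 : (1 - 249 / 1000 * ε) * L ≤ ((1 - ε / 8) * (1 - ε / 32)) * L := by
          refine mul_le_mul_of_nonneg_right ?_ hL
          nlinarith
        have h3 : ((1 - ε / 8) * L) * (1 - ε / 32) ≤ ((1 - ε / 8) * L) * (1 - y) :=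
          mul_le_mul_of_nonneg_left (by linarith) (mul_nonneg (by linarith) hL)
        have h4 : ((1 - ε / 8) * (1 - ε / 32)) * L = ((1 - ε / 8) * L) * (1 - ε / 32) := by ring
        linarith
    _ ≤ (1 - y) ^ k := pow_le_pow_left₀ (Real.exp_pos _).le (exp_le_one_sub (by linarith)) k

private theorem delta_k {ε k Δ L : ℝ} (hε : 0 < ε) (hk1 : 1 ≤ k)
    (hK : (16 / ε) ^ (16 / ε) ≤ k) (hΔ0 : 0 ≤ Δ) (hΔ1 : 1 ≤ k ^ (ε / 128) * Δ)
    (hL : L = Real.log (k * (1 + Δ))) (hLk : Real.log k ≤ L) :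
    8 / ε ≤ Δ * k * Real.exp (-((1 - ε / 8) * L)) := by
  have hk0 : 0 < k := by linarith
  have h1 : Real.exp L = k * (1 + Δ) := by
    rw [hL, Real.exp_log (mul_pos hk0 (by linarith))]
  have h2 : Real.exp (-((1 - ε / 8) * L)) = Real.exp (ε / 8 * L) / (k * (1 + Δ)) := by
    rw [← h1, ← Real.exp_sub]
    congr 1
    ring
  have h3 : k ^ (ε / 8) ≤ Real.exp (ε / 8 * L) := by
    rw [Real.rpow_def_of_pos hk0]
    apply Real.exp_le_exp.2
    have := mul_le_mul_of_nonneg_left hLk (by positivity : (0 : ℝ) ≤ ε / 8)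
    linarith
  have h4 : 1 / (2 * k ^ (ε / 128)) ≤ Δ / (1 + Δ) := by
    have hq0 : 0 < k ^ (ε / 128) := by positivity
    have hq1 : 1 ≤ k ^ (ε / 128) := Real.one_le_rpow hk1 (by positivity)
    rw [div_le_div_iff₀ (by positivity) (by positivity)]
    have h5 : Δ ≤ k ^ (ε / 128) * Δ := le_mul_of_one_le_left hΔ0 hq1
    have h6 : Δ * (2 * k ^ (ε / 128)) = k ^ (ε / 128) * Δ + k ^ (ε / 128) * Δ := by ring
    rw [h6, one_mul]
    linarith
  have h5 : (16 / ε) ≤ k ^ (ε / 16) := by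
    have h7 := Real.rpow_le_rpow (by positivity) hK (by positivity : (0 : ℝ) ≤ ε / 16)
    rw [← Real.rpow_mul (by positivity), show 16 / ε * (ε / 16) = 1 by field_simp,
      Real.rpow_one] at h7
    exact h7
  have h6 : k ^ (ε / 16) ≤ k ^ (ε / 8 - ε / 128) :=
    Real.rpow_le_rpow_of_exponent_le hk1 (by linarith)
  calc 8 / ε = (1 / 2) * (16 / ε) := by ring
    _ ≤ (1 / 2) * k ^ (ε / 8 - ε / 128) := by
        refine mul_le_mul_of_nonneg_left (h5.trans h6) (by norm_num)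
    _ = (1 / (2 * k ^ (ε / 128))) * k ^ (ε / 8) := by
        rw [Real.rpow_sub hk0]
        field_simp
    _ ≤ (Δ / (1 + Δ)) * Real.exp (ε / 8 * L) := by
        refine mul_le_mul h4 h3 (by positivity) (by positivity)
    _ = Δ * k * Real.exp (-((1 - ε / 8) * L)) := by
        rw [h2]
        have : 0 < 1 + Δ := by linarith
        field_simp

private theorem last_part {ε Z n p : ℝ} {h u m : ℕ} (hε : 0 < ε) (hε1 : ε ≤ 1) (hZ0 : 0 < Z)
    (hn0 : 0 < n) (hhZ : (h : ℝ) ≤ Z) (hu1 : ε / 4 * Z ≤ u) (hup : u * p ≤ 1)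
    (hlogn : Real.log n + 8 * Real.log 2 ≤ ε / 100 * Z) (hmp : 8 / ε ≤ m * p) :
    4 * n * (2 ^ h * (1 - u * p) ^ m) ≤ 1 := by
  have hlog2 := Real.log_two_gt_d9
  have hlog2' := Real.log_two_lt_d9
  have h9 : n = Real.exp (Real.log n) := (Real.exp_log hn0).symm
  have hexpn : 4 * n ≤ Real.exp (ε / 100 * Z) := by
    have h4 : (4 : ℝ) = Real.exp (2 * Real.log 2) := by
      rw [show 2 * Real.log 2 = ((2 : ℕ) : ℝ) * Real.log 2 by push_cast; ring,
        Real.exp_nat_mul, Real.exp_log (by norm_num)]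
      norm_num
    calc 4 * n = Real.exp (2 * Real.log 2 + Real.log n) := by
          rw [Real.exp_add, ← h4, ← h9]
      _ ≤ _ := by
          apply Real.exp_le_exp.2
          linarith
  have hexp2 : (2 : ℝ) ^ h ≤ Real.exp Z := by
    rw [← Real.rpow_natCast, Real.rpow_def_of_pos (by norm_num)]
    apply Real.exp_le_exp.2
    calc Real.log 2 * (h : ℝ) ≤ 1 * h :=
          mul_le_mul_of_nonneg_right (by linarith) (Nat.cast_nonneg _)
      _ = h := one_mul _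
      _ ≤ Z := hhZ
  have hexp3 : (1 - u * p) ^ m ≤ Real.exp (-(2 * Z)) := by
    calc (1 - u * p) ^ m ≤ Real.exp (-(u * p)) ^ m :=
          pow_le_pow_left₀ (by linarith) (Real.one_sub_le_exp_neg _) m
      _ = Real.exp (-(u * (m * p))) := by
          rw [← Real.exp_nat_mul]
          congr 1
          ring
      _ ≤ Real.exp (-(2 * Z)) := by
          apply Real.exp_le_exp.2
          have h1 : (ε / 4 * Z) * (8 / ε) ≤ u * (m * p) :=
            mul_le_mul hu1 hmp (by positivity) (Nat.cast_nonneg _)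
          have h2 : (ε / 4 * Z) * (8 / ε) = 2 * Z := by
            field_simp
            ring
          linarith
  have h0 : (0 : ℝ) ≤ (1 - u * p) ^ m := pow_nonneg (by linarith) m
  calc 4 * n * (2 ^ h * (1 - u * p) ^ m)
      ≤ Real.exp (ε / 100 * Z) * (Real.exp Z * Real.exp (-(2 * Z))) := by
        refine mul_le_mul hexpn (mul_le_mul hexp2 hexp3 h0 (Real.exp_pos _).le) ?_
          (Real.exp_pos _).le
        positivity
    _ = Real.exp (ε / 100 * Z + (Z + -(2 * Z))) := by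
        rw [← Real.exp_add, ← Real.exp_add]
    _ ≤ 1 := by
        rw [Real.exp_le_one_iff]
        have h1 : ε / 100 * Z ≤ 1 / 100 * Z := mul_le_mul_of_nonneg_right (by linarith) hZ0.le
        linarith

private theorem two_pow_ge {k : ℕ} (hk3 : 3 ≤ k) : 2 * (k : ℝ) ≤ 2 ^ k - 1 := by
  have h1 : 2 * k + 1 ≤ 2 ^ k := by
    have h2 : ∀ i : ℕ, 2 * (i + 3) + 1 ≤ 2 ^ (i + 3) := by
      intro i
      induction i with
      | zero => norm_num
      | succ i ih =>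
        rw [show i + 1 + 3 = (i + 3) + 1 by ring, pow_succ]
        omega
    obtain ⟨i, hi⟩ : ∃ i, k = i + 3 := ⟨k - 3, by omega⟩
    rw [hi]
    exact h2 i
  have h3 : (2 * (k : ℝ) + 1) ≤ 2 ^ k := by exact_mod_cast h1
  linarith

/-- the probability `p` -/
private theorem prob_part {ε y L Δ : ℝ} {k n m h u : ℕ} (hk3 : 3 ≤ k) (hhkn : h + k ≤ n)
    (hy0 : 0 ≤ y) (hy1 : y ≤ 1) (hyh : (h : ℝ) ≤ y * (n - k))
    (hρ : Real.exp (-((1 - ε / 8) * L)) ≤ (1 - y) ^ k) (hε : 0 < ε)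
    (hΔ0 : 0 ≤ Δ) (hm : (m : ℝ) = Δ * (2 ^ k * n))
    (hΔk : 8 / ε ≤ Δ * k * Real.exp (-((1 - ε / 8) * L)))
    (hu : (u : ℝ) ≤ 2 * (n - k + 1)) :
    u * (k * ((n - h).descFactorial (k - 1) : ℝ) /
        ((2 ^ k - 1) * (n.descFactorial k : ℝ))) ≤ 1 ∧
    8 / ε ≤ m * (k * ((n - h).descFactorial (k - 1) : ℝ) /
        ((2 ^ k - 1) * (n.descFactorial k : ℝ))) := by
  have hk0 : (0 : ℝ) < k := by
    have : 0 < k := by omega
    exact_mod_cast this
  have h2k : (0 : ℝ) < 2 ^ k := by positivity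
  have hnkR : (k : ℝ) ≤ n := by exact_mod_cast (by omega : k ≤ n)
  obtain ⟨j, hj⟩ : ∃ j, k = j + 1 := ⟨k - 1, by omega⟩
  have hkj : k - 1 = j := by omega
  obtain ⟨A, hA⟩ : ∃ A : ℝ, A = ((n - h).descFactorial (k - 1) : ℝ) := ⟨_, rfl⟩
  obtain ⟨B, hB⟩ : ∃ B : ℝ, B = (n.descFactorial (k - 1) : ℝ) := ⟨_, rfl⟩
  have hB0 : 0 < B := by
    rw [hB]
    have := Nat.descFactorial_pos.2 (by omega : k - 1 ≤ n)
    exact_mod_cast this
  have hAB : A ≤ B := by
    rw [hA, hB]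
    exact_mod_cast Nat.descFactorial_le (k - 1) (Nat.sub_le n h)
  have hA0 : 0 ≤ A := by rw [hA]; exact Nat.cast_nonneg _
  have hAρ : Real.exp (-((1 - ε / 8) * L)) * B ≤ A := by
    have h1 := desc_lower n h k y hhkn hy0 hy1 hyh (k - 1) (by omega)
    rw [← hA, ← hB] at h1
    refine le_trans (mul_le_mul_of_nonneg_right ?_ hB0.le) h1
    refine hρ.trans ?_
    rw [hkj, hj]
    exact pow_le_pow_of_le_one (by linarith) (by linarith) (Nat.le_succ j)
  have hBk : (n.descFactorial k : ℝ) = (n - k + 1) * B := by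
    rw [hB, hkj, hj, Nat.descFactorial_succ]
    push_cast
    rw [Nat.cast_sub (by omega)]
    ring
  have h2k1 := two_pow_ge hk3
  have hden : 0 < (2 ^ k - 1) * (n.descFactorial k : ℝ) := by
    rw [hBk]
    have h1 : (0 : ℝ) < 2 ^ k - 1 := by linarith
    have h2 : (0 : ℝ) < n - k + 1 := by linarith
    positivity
  rw [← hA]
  constructor
  · rw [← mul_div_assoc, div_le_one hden, hBk]
    have h2 : (0 : ℝ) ≤ n - k + 1 := by linarith
    calc (u : ℝ) * (k * A) ≤ (2 * (n - k + 1)) * (k * B) :=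
          mul_le_mul hu (mul_le_mul_of_nonneg_left hAB hk0.le) (mul_nonneg hk0.le hA0)
            (by linarith)
      _ = (2 * k) * ((n - k + 1) * B) := by ring
      _ ≤ (2 ^ k - 1) * ((n - k + 1) * B) :=
          mul_le_mul_of_nonneg_right h2k1 (mul_nonneg h2 hB0.le)
  · rw [← mul_div_assoc, le_div_iff₀ hden, hBk, hm]
    have h1 : (0 : ℝ) ≤ 2 ^ k * n * B := by positivity
    have h2 : 8 / ε * ((2 ^ k - 1) * ((n - k + 1) * B)) ≤ 8 / ε * (2 ^ k * n * B) := by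
      refine mul_le_mul_of_nonneg_left ?_ (by positivity)
      have h5 : (1 : ℝ) ≤ k := by exact_mod_cast (by omega : 1 ≤ k)
      have h3 : ((2 : ℝ) ^ k - 1) * (n - k + 1) ≤ 2 ^ k * n :=
        mul_le_mul (by linarith) (by linarith) (by linarith) h2k.le
      have h4 := mul_le_mul_of_nonneg_right h3 hB0.le
      linarith
    refine h2.trans ?_
    calc 8 / ε * (2 ^ k * n * B) ≤ (Δ * k * Real.exp (-((1 - ε / 8) * L))) * (2 ^ k * n * B) :=
          mul_le_mul_of_nonneg_right hΔk h1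
      _ = Δ * (2 ^ k * n) * (k * (Real.exp (-((1 - ε / 8) * L)) * B)) := by ring
      _ ≤ Δ * (2 ^ k * n) * (k * A) := by
          refine mul_le_mul_of_nonneg_left (mul_le_mul_of_nonneg_left hAρ hk0.le) ?_
          positivity

theorem pf_XNL : T_XNL := by
  intro ε hε hε1
  obtain ⟨K, hK⟩ : ∃ K : ℕ, 2 ^ 20 / ε ^ 2 + (16 / ε) ^ (16 / ε) ≤ K := exists_nat_ge _
  have hB0 : (0 : ℝ) < (16 / ε) ^ (16 / ε) := by positivity
  have hA0 : (0 : ℝ) < 2 ^ 20 / ε ^ 2 := by positivity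
  refine ⟨ε / 128, K, by positivity, fun k n m hk hn hm1 hm2 => ?_⟩
  have hbig : (2 : ℝ) ^ 20 ≤ 2 ^ 20 / ε ^ 2 := by
    rw [le_div_iff₀ (by positivity)]
    have : ε ^ 2 ≤ 1 := pow_le_one₀ hε.le hε1
    linarith
  have hbig1 : (2 : ℝ) ^ 20 ≤ 2 ^ 20 / ε := by
    rw [le_div_iff₀ hε]
    linarith
  have hkK : (K : ℝ) ≤ k := by exact_mod_cast hk
  have hkR : 2 ^ 20 / ε ^ 2 ≤ (k : ℝ) := by linarith
  have hk0 : (0 : ℝ) < k := by linarith
  have hnK : (K : ℝ) * k ≤ n := by exact_mod_cast hn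
  have hx : 2 ^ 20 / ε ^ 2 ≤ (n : ℝ) / k := by
    rw [le_div_iff₀ hk0]
    exact (mul_le_mul_of_nonneg_right (by linarith) hk0.le).trans hnK
  have hn0 : (0 : ℝ) < n := lt_of_lt_of_le (mul_pos (by linarith) hk0) hnK
  have h2k : (0 : ℝ) < 2 ^ k := by positivity
  obtain ⟨Δ, hΔ⟩ : ∃ Δ : ℝ, Δ = m / (2 ^ k * n) := ⟨_, rfl⟩
  have hm : (m : ℝ) = Δ * (2 ^ k * n) := by
    rw [hΔ]
    field_simp
  have hΔ0 : 0 ≤ Δ := by rw [hΔ]; positivity
  have hΔ1 : (1 : ℝ) ≤ (k : ℝ) ^ (ε / 128) * Δ := by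
    rw [hm] at hm1
    have h1 : 1 * ((2 : ℝ) ^ k * n) ≤ ((k : ℝ) ^ (ε / 128) * Δ) * (2 ^ k * n) := by
      rw [one_mul, mul_assoc]
      exact hm1
    exact le_of_mul_le_mul_right h1 (by positivity)
  have hΔ2 : Δ ≤ (2 : ℝ) ^ (ε / 128 * k) := by
    rw [hΔ, div_le_iff₀ (by positivity)]
    refine hm2.trans (le_of_eq ?_)
    rw [← mul_assoc, ← Real.rpow_natCast 2 k, ← Real.rpow_add (by norm_num)]
    congr 2
    ring
  obtain ⟨hL13, hLk, hLup, hlogn, hxZ⟩ := basics hε hε1 hkR hx hΔ0 hΔ2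
  obtain ⟨L, hL⟩ : ∃ L : ℝ, L = Real.log (k * (1 + Δ)) := ⟨_, rfl⟩
  rw [← hL] at hL13 hLk hLup hlogn hxZ
  have hsav : sav n k m = L / k := by
    unfold sav
    rw [hL, hΔ]
  obtain ⟨Z, hZ⟩ : ∃ Z : ℝ, Z = L * (n / k) := ⟨_, rfl⟩
  rw [← hZ] at hlogn hxZ
  have hZbig : 2 ^ 20 / ε ^ 2 ≤ Z := hx.trans hxZ
  have hZ0 : 0 < Z := by linarith
  have hmulε : ∀ z : ℝ, 2 ^ 20 / ε ^ 2 ≤ z → 2 ^ 20 ≤ ε * z := by
    intro z hz
    have h8 : 2 ^ 20 / ε ^ 2 * ε ≤ z * ε := mul_le_mul_of_nonneg_right hz hε.le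
    have h9 : (2 : ℝ) ^ 20 / ε ^ 2 * ε = 2 ^ 20 / ε := by
      field_simp
    rw [h9] at h8
    linarith
  have hεZ : (2 : ℝ) ^ 20 ≤ ε * Z := hmulε Z hZbig
  have hZn : Z ≤ n / 64 := by
    rw [hZ]
    calc L * (n / k) ≤ (ε / 64 * k) * (n / k) := mul_le_mul_of_nonneg_right hLup (by positivity)
      _ = ε * (n / 64) := by field_simp
      _ ≤ 1 * (n / 64) := mul_le_mul_of_nonneg_right hε1 (by positivity)
      _ = n / 64 := one_mul _
  have hkn : 2 ^ 20 * (k : ℝ) ≤ ε * n := by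
    have h1 := mul_le_mul_of_nonneg_right (hmulε _ hx) hk0.le
    have h2 : ε * ((n : ℝ) / k) * k = ε * n := by field_simp
    rw [h2] at h1
    exact h1
  have hεn : ε * n ≤ n := by
    have := mul_le_mul_of_nonneg_right hε1 hn0.le
    linarith
  have hk3 : 3 ≤ k := by
    have : (3 : ℝ) ≤ k := by linarith
    exact_mod_cast this
  obtain ⟨h, u, hh1, hu1, huh', hhZ, hhu⟩ := hu_facts hε hε1 hεZ
  have huh : (u : ℝ) ≤ h := by exact_mod_cast huh'
  have hhn8 : (h : ℝ) ≤ n / 64 := hhZ.trans hZn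
  have hhn : h ≤ n := by
    have : (h : ℝ) ≤ n := by linarith
    exact_mod_cast this
  have hhkn : h + k ≤ n := by
    have : (h : ℝ) + k ≤ n := by linarith
    exact_mod_cast this
  refine ⟨h, u, huh', hhn, ?_, ?_⟩
  · rw [hsav]
    have h1 : (1 - ε) * (L / k) * n = (1 - ε) * Z := by
      rw [hZ]
      ring
    rw [h1]
    exact first_part hε hZ0 hn0 huh' hεZ hlogn hhu
  obtain ⟨y, hy⟩ : ∃ y : ℝ, y = h / (n - k) := ⟨_, rfl⟩
  have hnk : (0 : ℝ) < n - k := by linarith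
  have hnk2 : (n : ℝ) ≤ (1 + ε / 1000) * (n - k) := by
    have h1 : ε * k ≤ k := by
      have := mul_le_mul_of_nonneg_right hε1 hk0.le
      linarith
    have h2 : (1 + ε / 1000) * (n - k) = n + ε * n / 1000 - k - (ε * k) / 1000 := by ring
    rw [h2]
    linarith
  have hy0 : 0 ≤ y := by rw [hy]; positivity
  have hyh : (h : ℝ) ≤ y * (n - k) := by
    rw [hy]
    field_simp
    exact le_refl _
  have hyk : y * k ≤ (1 - 249 / 1000 * ε) * L := by
    rw [hy, div_mul_eq_mul_div, div_le_iff₀ hnk]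
    calc (h : ℝ) * k ≤ ((1 - ε / 4) * Z) * k := mul_le_mul_of_nonneg_right hh1 hk0.le
      _ = (1 - ε / 4) * L * n := by
          rw [hZ]
          field_simp
      _ ≤ (1 - ε / 4) * L * ((1 + ε / 1000) * (n - k)) := by
          refine mul_le_mul_of_nonneg_left hnk2 (mul_nonneg (by linarith) (by linarith))
      _ = ((1 - ε / 4) * (1 + ε / 1000)) * (L * (n - k)) := by ring
      _ ≤ (1 - 249 / 1000 * ε) * (L * (n - k)) := by
          refine mul_le_mul_of_nonneg_right ?_ (mul_nonneg (by linarith) hnk.le)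
          have := sq_nonneg ε
          have e : (1 - ε / 4) * (1 + ε / 1000) = 1 - 249 / 1000 * ε - ε ^ 2 / 4000 := by ring
          rw [e]
          linarith
      _ = _ := by ring
  have hyε : y ≤ ε / 32 := by
    have h1 : y * k ≤ L := by
      have h2 : (1 - 249 / 1000 * ε) * L ≤ 1 * L :=
        mul_le_mul_of_nonneg_right (by linarith) (by linarith)
      linarith
    have h2 : y * k ≤ ε / 32 * k := by
      have : 0 ≤ ε * k := by positivity
      linarith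
    exact le_of_mul_le_mul_right h2 hk0
  have hρ := rho (k := k) hε hε1 (by linarith) hyk hyε
  have hΔk := delta_k hε (by linarith : (1 : ℝ) ≤ k) (by linarith) hΔ0 hΔ1 hL hLk
  obtain ⟨hup, hmp⟩ := prob_part (u := u) hk3 hhkn hy0 (by linarith) hyh hρ hε hΔ0 hm hΔk
    (by linarith)
  exact last_part hε hε1 hZ0 hn0 hhZ hu1 hup hlogn hmp

end Pool.Agent.H19.SQ.XNL
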