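import Pool.Agent.H47.SQ.Targets3

/-!
# Search on random k-CNFs (MP_c62aed_lc), row XZB: the number of the assignments near to `τ`
-/

set_option autoImplicit false

namespace Pool.Agent.H19.SQ.XZB

open Finset Pool.Agent.H97.RK Pool.Agent.H41.SS Pool.Agent.H47.SR

/-- the number of the subsets with at most `a` elements -/
private theorem card_small {α : Type} [DecidableEq α] (s : Finset α) (a : ℕ) :
    (s.powerset.filter fun T => T.card ≤ a).card = bl s.card a := by
  unfold bl
  rw [Finset.card_eq_sum_card_fiberwise (f := Finset.card) (t := range (a + 1))]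
  · refine Finset.sum_congr rfl fun i hi => ?_
    rw [← card_powersetCard]
    congr 1
    ext T
    simp only [mem_filter, mem_powerset, mem_powersetCard, mem_range] at hi ⊢
    constructor
    · rintro ⟨⟨h1, h2⟩, h3⟩
      exact ⟨h1, h3⟩
    · rintro ⟨h1, h3⟩
      exact ⟨⟨h1, by omega⟩, h3⟩
  · intro T hT
    have h := (mem_filter.1 hT).2
    simp only [coe_range, Set.mem_Iio]
    omega

private theorem bl_mono {N N' : ℕ} (h : N ≤ N') (a : ℕ) : bl N a ≤ bl N' a := by
  unfold bl
  exact Finset.sum_le_sum fun i _ => Nat.choose_le_choose i h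

private theorem card_rest (n w : ℕ) : (univ \ pre n (n - w)).card ≤ w := by
  have h1 : (univ \ pre n (n - w)).card ≤ (Finset.Ico (n - w) n).card := by
    refine card_le_card_of_injOn (fun v => v.1) ?_ (fun v _ v' _ h => Fin.ext h)
    intro v hv
    have h2 : v ∉ pre n (n - w) := (mem_sdiff.1 hv).2
    unfold pre at h2
    rw [mem_filter] at h2
    have h3 : ¬ v.1 < n - w := fun h => h2 ⟨mem_univ _, h⟩
    simp only [coe_Ico, Set.mem_Ico]
    exact ⟨by omega, v.2⟩
  rw [Nat.card_Ico] at h1
  omega

theorem pf_XZB : T_XZB := by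
  intro n t t₁ u u₁ τ
  classical
  rw [Nat.card_eq_fintype_card, Fintype.card_subtype]
  obtain ⟨A, hA⟩ : ∃ A : Finset (Finset (Fin n)), A = (univ \ pre n (n - u)).powerset := ⟨_, rfl⟩
  obtain ⟨B, hB⟩ : ∃ B : Finset (Finset (Fin n)),
    B = (univ \ pre n (n - u₁)).powerset.filter fun T => T.card ≤ 4 * t + 1 := ⟨_, rfl⟩
  obtain ⟨C, hC⟩ : ∃ C : Finset (Finset (Fin n)),
    C = (univ : Finset (Fin n)).powerset.filter fun T => T.card ≤ 2 * t₁ + 1 := ⟨_, rfl⟩
  have hAc : A.card ≤ 2 ^ u := by
    rw [hA, card_powerset]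
    exact Nat.pow_le_pow_right (by norm_num) (card_rest n u)
  have hBc : B.card ≤ bl u₁ (4 * t + 1) := by
    rw [hB, card_small]
    exact bl_mono (card_rest n u₁) _
  have hCc : C.card = bl n (2 * t₁ + 1) := by
    rw [hC, card_small, card_univ, Fintype.card_fin]
  have h1 : (univ.filter fun z : Fin n → Bool => Zb t t₁ u u₁ τ z).card ≤
      (A ×ˢ (B ×ˢ C)).card := by
    refine card_le_card_of_injOn (fun z =>
      ((univ \ pre n (n - u)).filter fun v => z v ≠ τ v,
        ((pre n (n - u)).filter fun v => z v ≠ τ v) \ pre n (n - u₁),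
        ((pre n (n - u)).filter fun v => z v ≠ τ v) ∩ pre n (n - u₁))) ?_ ?_
    · intro z hz
      obtain ⟨h2, h3⟩ := (mem_filter.1 hz).2
      simp only [coe_product, Set.mem_prod, mem_coe]
      refine ⟨?_, ?_, ?_⟩
      · rw [hA, mem_powerset]
        exact filter_subset _ _
      · rw [hB, mem_filter, mem_powerset]
        refine ⟨sdiff_subset_sdiff (subset_univ _) (Subset.refl _), ?_⟩
        exact (card_le_card sdiff_subset).trans h2
      · rw [hC, mem_filter, mem_powerset]
        refine ⟨subset_univ _, le_trans (card_le_card ?_) h3⟩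
        intro v hv
        obtain ⟨h4, h5⟩ := mem_inter.1 hv
        exact mem_filter.2 ⟨h5, (mem_filter.1 h4).2⟩
    · intro z _ z' _ h
      simp only [Prod.mk.injEq] at h
      obtain ⟨e1, e2, e3⟩ := h
      have key : ∀ v, z v ≠ τ v ↔ z' v ≠ τ v := by
        intro v
        by_cases hv : v ∈ pre n (n - u)
        · by_cases hv1 : v ∈ pre n (n - u₁)
          · have h4 := Finset.ext_iff.1 e3 v
            simp only [mem_inter, mem_filter] at h4
            constructor
            · intro h5
              exact (h4.1 ⟨⟨hv, h5⟩, hv1⟩).1.2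
            · intro h5
              exact (h4.2 ⟨⟨hv, h5⟩, hv1⟩).1.2
          · have h4 := Finset.ext_iff.1 e2 v
            simp only [mem_sdiff, mem_filter] at h4
            constructor
            · intro h5
              exact (h4.1 ⟨⟨hv, h5⟩, hv1⟩).1.2
            · intro h5
              exact (h4.2 ⟨⟨hv, h5⟩, hv1⟩).1.2
        · have h4 := Finset.ext_iff.1 e1 v
          simp only [mem_sdiff, mem_filter] at h4
          constructor
          · intro h5
            exact (h4.1 ⟨⟨mem_univ _, hv⟩, h5⟩).2
          · intro h5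
            exact (h4.2 ⟨⟨mem_univ _, hv⟩, h5⟩).2
      funext v
      have h6 := key v
      cases h7 : z v <;> cases h8 : z' v <;> cases h9 : τ v <;> simp_all
  refine h1.trans ?_
  rw [card_product, card_product, hCc, ← mul_assoc]
  exact Nat.mul_le_mul_right _ (Nat.mul_le_mul hAc hBc)

end Pool.Agent.H19.SQ.XZB
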